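import Pool.Agent.BLN.Chk.Own

set_option autoImplicit false
set_option linter.unusedSectionVars false

/-!
Branching of a pattern at an open slot.
-/

namespace Pool.Agent.BLN.Chk

open Finset Pool.Agent.IVT

variable {V : Type} [Fintype V] [DecidableEq V]

/-- Add `w` to the known neighbours of `v`. -/
def upd : Pat → ℕ → ℕ → Pat
  | [], _, _ => []
  | x :: P, 0, w => ⟨x.c, x.t, w :: x.nb⟩ :: P
  | x :: P, v + 1, w => x :: upd P v w

/-- Add the edge `v w` between named vertices. -/
def addE (P : Pat) (v w : ℕ) : Pat := upd (upd P v w) w v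

/-- Add a new vertex of colour `c` and type `t`, adjacent to `v`. -/
def addV (P : Pat) (v : ℕ) (c : Bool) (t : ℕ) : Pat := upd P v P.length ++ [⟨c, t, [v]⟩]

/-- The children at an open slot of `v` for a neighbour of the other colour. -/
def chO (P : Pat) (v : ℕ) : List Pat :=
  ((List.range P.length).filter
    (fun j => (colP P j != colP P v) && (slO P j != 0) && okE P v j)).map (addE P v) ++
  [addV P v (!colP P v) 0, addV P v (!colP P v) 1] ++
  (if (nbs P v).all (fun a => typP P a != 2) then [addV P v (!colP P v) 2] else [])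

/-- The children at an open slot of `v` for a neighbour of the same colour. -/
def chM (P : Pat) (v : ℕ) : List Pat :=
  ((List.range P.length).filter
    (fun j => (colP P j == colP P v) && (slM P j != 0) && okE P v j)).map (addE P v) ++
  [addV P v (colP P v) 1]

theorem length_upd (P : Pat) (v w : ℕ) : (upd P v w).length = P.length := by
  induction P generalizing v with
  | nil => rfl
  | cons x P ih =>
    cases v with
    | zero => rfl
    | succ v => simp [upd, ih]

theorem vx_upd (P : Pat) (v w i : ℕ) (hv : v < P.length) :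
    vx (upd P v w) i = if i = v then ⟨(vx P i).c, (vx P i).t, w :: (vx P i).nb⟩ else vx P i := by
  induction P generalizing v i with
  | nil => simp at hv
  | cons x P ih =>
    cases v with
    | zero =>
      cases i with
      | zero => simp [upd, vx]
      | succ i => simp [upd, vx]
    | succ v =>
      cases i with
      | zero => simp [upd, vx]
      | succ i =>
        have h1 := ih v i (by simpa using hv)
        simp only [upd, vx, h1, Nat.add_right_cancel_iff]

theorem vx_append (P : Pat) (x : Vx) (i : ℕ) (hi : i < P.length) : vx (P ++ [x]) i = vx P i := by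
  induction P generalizing i with
  | nil => simp at hi
  | cons y P ih =>
    cases i with
    | zero => rfl
    | succ i =>
      have := ih i (by simpa using hi)
      simpa [vx] using this

theorem vx_append_last (P : Pat) (x : Vx) : vx (P ++ [x]) P.length = x := by
  induction P with
  | nil => rfl
  | cons y P ih => simpa [vx] using ih

/-! ### Adding an edge -/

theorem length_addE (P : Pat) (v w : ℕ) : (addE P v w).length = P.length := by
  simp [addE, length_upd]

theorem vx_addE (P : Pat) (v w i : ℕ) (hv : v < P.length) (hw : w < P.length) :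
    vx (addE P v w) i = ⟨(vx P i).c, (vx P i).t,
      (if i = w then [v] else []) ++ (if i = v then [w] else []) ++ (vx P i).nb⟩ := by
  unfold addE
  rw [vx_upd _ _ _ _ (by rw [length_upd]; exact hw), vx_upd _ _ _ _ hv]
  by_cases h1 : i = w
  · by_cases h2 : i = v
    · simp only [if_pos h1, if_pos h2]
      rfl
    · simp only [if_pos h1, if_neg h2]
      rfl
  · by_cases h2 : i = v
    · simp only [if_neg h1, if_pos h2]
      rfl
    · simp only [if_neg h1, if_neg h2]
      rfl

theorem colP_addE {P : Pat} {v w : ℕ} (i : ℕ) (hv : v < P.length) (hw : w < P.length) :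
    colP (addE P v w) i = colP P i := by
  unfold colP
  rw [vx_addE P v w i hv hw]

theorem typP_addE {P : Pat} {v w : ℕ} (i : ℕ) (hv : v < P.length) (hw : w < P.length) :
    typP (addE P v w) i = typP P i := by
  unfold typP
  rw [vx_addE P v w i hv hw]

theorem nbs_addE {P : Pat} {v w : ℕ} (i : ℕ) (hv : v < P.length) (hw : w < P.length) :
    nbs (addE P v w) i = (if i = w then [v] else []) ++ (if i = v then [w] else []) ++ nbs P i := by
  unfold nbs
  rw [vx_addE P v w i hv hw]

theorem mem_nbs_addE {P : Pat} {v w : ℕ} (i j : ℕ) (hv : v < P.length) (hw : w < P.length) :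
    j ∈ nbs (addE P v w) i ↔ (i = w ∧ j = v) ∨ (i = v ∧ j = w) ∨ j ∈ nbs P i := by
  rw [nbs_addE i hv hw]
  by_cases h1 : i = w <;> by_cases h2 : i = v <;> simp [h1, h2]

variable {G : SimpleGraph V} [DecidableRel G.Adj] {g : V → Bool} {P : Pat} {f : ℕ → V}

theorem Rea.addE (h : Rea G g P f) {v w : ℕ} (hv : v < P.length) (hw : w < P.length)
    (ha : G.Adj (f v) (f w)) (hn : w ∉ nbs P v) : Rea G g (addE P v w) f := by
  have hne : v ≠ w := fun h1 => by subst h1; exact G.irrefl ha
  have hn' : v ∉ nbs P w := fun h1 => hn (h.sym w hw v h1)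
  refine ⟨?_, ?_, ?_, ?_, ?_, ?_, ?_⟩
  · intro i j hi hj
    rw [length_addE] at hi hj
    exact h.inj i j hi hj
  · intro i hi
    rw [length_addE] at hi
    rw [colP_addE i hv hw]
    exact h.col i hi
  · intro i hi j hj
    rw [length_addE] at hi ⊢
    rcases (mem_nbs_addE i j hv hw).1 hj with ⟨_, rfl⟩ | ⟨_, rfl⟩ | h1
    · exact hv
    · exact hw
    · exact h.lt i hi j h1
  · intro i hi j hj
    rw [length_addE] at hi
    rcases (mem_nbs_addE i j hv hw).1 hj with ⟨rfl, rfl⟩ | ⟨rfl, rfl⟩ | h1
    · exact ha.symm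
    · exact ha
    · exact h.adj i hi j h1
  · intro i hi j hj
    rw [length_addE] at hi
    rw [mem_nbs_addE j i hv hw]
    rcases (mem_nbs_addE i j hv hw).1 hj with ⟨rfl, rfl⟩ | ⟨rfl, rfl⟩ | h1
    · exact Or.inr (Or.inl ⟨rfl, rfl⟩)
    · exact Or.inl ⟨rfl, rfl⟩
    · exact Or.inr (Or.inr (h.sym i hi j h1))
  · intro i hi
    rw [length_addE] at hi
    rw [nbs_addE i hv hw]
    have h1 := h.nd i hi
    by_cases h2 : i = w
    · have h3 : i ≠ v := fun h4 => hne (by rw [← h4, h2])
      rw [if_pos h2, if_neg h3]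
      subst h2
      simpa [h1] using hn'
    · rw [if_neg h2]
      by_cases h3 : i = v
      · rw [if_pos h3]
        subst h3
        simpa [h1] using hn
      · rw [if_neg h3]
        simpa using h1
  · intro i hi
    rw [length_addE] at hi
    rw [typP_addE i hv hw]
    exact h.typ i hi

/-! ### Adding a vertex -/

theorem length_addV (P : Pat) (v : ℕ) (c : Bool) (t : ℕ) : (addV P v c t).length = P.length + 1 := by
  simp [addV, length_upd]

theorem vx_addV_old (P : Pat) (v : ℕ) (c : Bool) (t : ℕ) (hv : v < P.length) {i : ℕ}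
    (hi : i < P.length) :
    vx (addV P v c t) i = ⟨(vx P i).c, (vx P i).t, (if i = v then [P.length] else []) ++ (vx P i).nb⟩ := by
  unfold addV
  rw [vx_append _ _ _ (by rw [length_upd]; exact hi), vx_upd _ _ _ _ hv]
  by_cases h1 : i = v <;> simp [h1]

theorem vx_addV_new (P : Pat) (v : ℕ) (c : Bool) (t : ℕ) :
    vx (addV P v c t) P.length = ⟨c, t, [v]⟩ := by
  unfold addV
  have := vx_append_last (upd P v P.length) ⟨c, t, [v]⟩
  rw [length_upd] at this
  exact this

theorem Rea.addV (h : Rea G g P f) {v : ℕ} (hv : v < P.length) {w : V} {c : Bool} {t : ℕ}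
    (ha : G.Adj (f v) w) (hn : ∀ i, i < P.length → f i ≠ w) (hc : g w = c) (ht : Ty G g w t) :
    Rea G g (addV P v c t) (Function.update f P.length w) := by
  have hfo : ∀ i, i < P.length → Function.update f P.length w i = f i := fun i hi =>
    Function.update_of_ne (by omega) _ _
  have hfn : Function.update f P.length w P.length = w := Function.update_self _ _ _
  have hlt : ∀ i, i < (Chk.addV P v c t).length → i < P.length ∨ i = P.length := by
    intro i hi
    rw [length_addV] at hi
    omega
  have hnb : ∀ i, i < P.length → ∀ j, j ∈ nbs (Chk.addV P v c t) i ↔ (i = v ∧ j = P.length) ∨ j ∈ nbs P i := by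
    intro i hi j
    unfold nbs
    rw [vx_addV_old P v c t hv hi]
    by_cases h1 : i = v <;> simp [h1]
  have hnn : nbs (Chk.addV P v c t) P.length = [v] := by
    unfold nbs
    rw [vx_addV_new]
  refine ⟨?_, ?_, ?_, ?_, ?_, ?_, ?_⟩
  · intro i j hi hj hij
    rcases hlt i hi with h1 | h1 <;> rcases hlt j hj with h2 | h2
    · rw [hfo i h1, hfo j h2] at hij
      exact h.inj i j h1 h2 hij
    · rw [hfo i h1, h2, hfn] at hij
      exact absurd hij (hn i h1)
    · rw [hfo j h2, h1, hfn] at hij
      exact absurd hij.symm (hn j h2)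
    · rw [h1, h2]
  · intro i hi
    rcases hlt i hi with h1 | h1
    · rw [hfo i h1, h.col i h1]
      unfold colP
      rw [vx_addV_old P v c t hv h1]
    · rw [h1, hfn, hc]
      unfold colP
      rw [vx_addV_new]
  · intro i hi j hj
    rw [length_addV]
    rcases hlt i hi with h1 | h1
    · rcases (hnb i h1 j).1 hj with ⟨_, h2⟩ | h2
      · omega
      · have := h.lt i h1 j h2
        omega
    · rw [h1, hnn] at hj
      rw [List.mem_singleton] at hj
      omega
  · intro i hi j hj
    rcases hlt i hi with h1 | h1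
    · rcases (hnb i h1 j).1 hj with ⟨h2, h3⟩ | h2
      · rw [hfo i h1, h3, hfn, h2]
        exact ha
      · rw [hfo i h1, hfo j (h.lt i h1 j h2)]
        exact h.adj i h1 j h2
    · rw [h1, hnn, List.mem_singleton] at hj
      rw [h1, hfn, hj, hfo v hv]
      exact ha.symm
  · intro i hi j hj
    rcases hlt i hi with h1 | h1
    · rcases (hnb i h1 j).1 hj with ⟨h2, h3⟩ | h2
      · rw [h3, hnn, h2]
        exact List.mem_singleton.2 rfl
      · rw [hnb j (h.lt i h1 j h2)]
        exact Or.inr (h.sym i h1 j h2)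
    · rw [h1, hnn, List.mem_singleton] at hj
      rw [hj, h1, hnb v hv]
      exact Or.inl ⟨rfl, rfl⟩
  · intro i hi
    rcases hlt i hi with h1 | h1
    · unfold nbs
      rw [vx_addV_old P v c t hv h1]
      have h2 := h.nd i h1
      by_cases h3 : i = v
      · simp only [h3, if_true]
        rw [h3] at h2
        refine List.nodup_cons.2 ⟨fun h4 => ?_, h2⟩
        have := h.lt v hv _ h4
        omega
      · simp only [h3, if_false]
        exact h2
    · rw [h1, hnn]
      exact List.nodup_singleton _
  · intro i hi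
    rcases hlt i hi with h1 | h1
    · rw [hfo i h1]
      have h2 := h.typ i h1
      unfold typP at h2 ⊢
      rw [vx_addV_old P v c t hv h1]
      exact h2
    · rw [h1, hfn]
      unfold typP
      rw [vx_addV_new]
      exact ht

/-! ### Branching -/

theorem Rea.exists_ty_not_named (hx : Cx G) (hg : Valid3 G g) (w : V) : ∃ t, t < 3 ∧ Ty G g w t :=
  exists_ty hx.deg hg w

theorem Rea.chO (hx : Cx G) (hg : Valid3 G g) (h : Rea G g P f) {v : ℕ} (hv : v < P.length)
    (hs : slO P v ≠ 0) :
    ∃ Q ∈ chO P v, ∃ f' : ℕ → V, Rea G g Q f' ∧ P.length ≤ Q.length ∧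
      ∀ i, i < P.length → f' i = f i := by
  have h1 := h.card_uO hv
  obtain ⟨w, hw⟩ : (oN G g (f v) \ im f (oP P v)).Nonempty := by
    rw [← Finset.card_pos]
    omega
  have hwo := mem_oN.1 (Finset.mem_sdiff.1 hw).1
  by_cases hn : ∃ j, j < P.length ∧ f j = w
  · obtain ⟨j, hj, rfl⟩ := hn
    have h2 := h.uO_named hv hj hw
    have h3 := h.okE hx hv hj hwo.1 h2.1
    refine ⟨Chk.addE P v j, ?_, f, h.addE hv hj hwo.1 h2.1, by rw [length_addE], fun i _ => rfl⟩
    unfold Chk.chO
    rw [List.mem_append, List.mem_append]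
    refine Or.inl (Or.inl (List.mem_map.2 ⟨j, List.mem_filter.2 ⟨List.mem_range.2 hj, ?_⟩, rfl⟩))
    simp [h2.2.1, h2.2.2, h3]
  · have hn' : ∀ i, i < P.length → f i ≠ w := fun i hi h2 => hn ⟨i, hi, h2⟩
    have hc : g w = !colP P v := by
      have h2 := hwo.2
      rw [h.col v hv] at h2
      exact Bool.eq_not_of_ne h2
    obtain ⟨t, ht, hty⟩ := exists_ty hx.deg hg w
    have hr := h.addV hv hwo.1 hn' hc hty
    refine ⟨_, ?_, _, hr, by rw [length_addV]; omega, fun i hi => Function.update_of_ne (by omega) _ _⟩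
    unfold Chk.chO
    rw [List.mem_append, List.mem_append]
    have h012 : t = 0 ∨ t = 1 ∨ t = 2 := by omega
    rcases h012 with rfl | rfl | rfl
    · exact Or.inl (Or.inr (by simp))
    · exact Or.inl (Or.inr (by simp))
    · right
      have h2 : ((nbs P v).all (fun a => typP P a != 2)) = true := by
        rw [List.all_eq_true]
        intro a ha
        have hla := h.lt v hv a ha
        by_contra h3
        have h4 : typP P a = 2 := by simpa using h3
        have h5 := h.typ a hla
        rw [h4] at h5
        exact hn' a hla (hx.pd (f v) (f a) w (h.adj v hv a ha) hwo.1 h5.one hty.one)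
      rw [h2]
      simp

theorem Rea.chM (hx : Cx G) (hg : Valid3 G g) (h : Rea G g P f) {v : ℕ} (hv : v < P.length)
    (hs : slM P v ≠ 0) :
    ∃ Q ∈ chM P v, ∃ f' : ℕ → V, Rea G g Q f' ∧ P.length ≤ Q.length ∧
      ∀ i, i < P.length → f' i = f i := by
  have h1 := h.card_uM hv
  obtain ⟨w, hw⟩ : (bad G g (f v) \ im f (mP P v)).Nonempty := by
    rw [← Finset.card_pos]
    omega
  have hwo := (mem_bad _ _ _ _).1 (Finset.mem_sdiff.1 hw).1
  by_cases hn : ∃ j, j < P.length ∧ f j = w
  · obtain ⟨j, hj, rfl⟩ := hn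
    have h2 := h.uM_named hv hj hw
    have h3 := h.okE hx hv hj hwo.1 h2.1
    refine ⟨Chk.addE P v j, ?_, f, h.addE hv hj hwo.1 h2.1, by rw [length_addE], fun i _ => rfl⟩
    unfold Chk.chM
    rw [List.mem_append]
    refine Or.inl (List.mem_map.2 ⟨j, List.mem_filter.2 ⟨List.mem_range.2 hj, ?_⟩, rfl⟩)
    simp [h2.2.1, h2.2.2, h3]
  · have hn' : ∀ i, i < P.length → f i ≠ w := fun i hi h2 => hn ⟨i, hi, h2⟩
    have hc : g w = colP P v := by rw [hwo.2, h.col v hv]
    obtain ⟨t, ht, hty⟩ := exists_ty hx.deg hg w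
    have h4 : f v ∈ bad G g w := (mem_bad _ _ _ _).2 ⟨hwo.1.symm, hwo.2.symm⟩
    have h5 := Finset.card_pos.2 ⟨_, h4⟩
    have h6 : t = 1 := by
      rcases hty with ⟨_, _, h7⟩ | ⟨h7, _, _⟩ | ⟨_, _, h7⟩
      · omega
      · exact h7
      · omega
    subst h6
    have hr := h.addV hv hwo.1 hn' hc hty
    refine ⟨_, ?_, _, hr, by rw [length_addV]; omega, fun i hi => Function.update_of_ne (by omega) _ _⟩
    unfold Chk.chM
    rw [List.mem_append]
    exact Or.inr (List.mem_singleton.2 rfl)

/-- States with a mask below `2 ^ n` depend only on the first `n` names. -/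
theorem stC_ext {P Q : Pat} {f f' : ℕ → V} (hPQ : P.length ≤ Q.length)
    (hf : ∀ i, i < P.length → f' i = f i) {S : ℕ} (hS : S < 2 ^ P.length) :
    stC g Q f' S = stC g P f S := by
  have h1 : fl Q f' S = fl P f S := by
    ext w
    rw [mem_fl, mem_fl]
    constructor
    · rintro ⟨i, hi, h2, h3⟩
      have h4 : i < P.length := by
        by_contra h5
        have h6 : S.testBit i = false := Nat.testBit_lt_two_pow
          (lt_of_lt_of_le hS (Nat.pow_le_pow_right (by norm_num) (by omega)))
        rw [h6] at h2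
        exact Bool.noConfusion h2
      exact ⟨i, h4, h2, by rw [← hf i h4]; exact h3⟩
    · rintro ⟨i, hi, h2, h3⟩
      exact ⟨i, by omega, h2, by rw [hf i hi]; exact h3⟩
  unfold stC
  rw [h1]

end Pool.Agent.BLN.Chk
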