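import Pool.Agent.BLN.Chk.Emb

set_option autoImplicit false
set_option linter.unusedSectionVars false

/-!
The dual pattern: the star `0, 1, 2, 3` is flipped and all colours are exchanged.
-/

namespace Pool.Agent.BLN.Chk

open Finset Pool.Agent.IVT

theorem vx_map (F : ℕ → Vx) (L : List ℕ) (i : ℕ) (hi : i < L.length) :
    vx (L.map F) i = F (L[i]) := by
  induction L generalizing i with
  | nil => simp at hi
  | cons a L ih =>
    cases i with
    | zero => rfl
    | succ i =>
      have := ih i (by simpa using hi)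
      simpa [vx] using this

theorem vx_map_range (F : ℕ → Vx) (n i : ℕ) (hi : i < n) :
    vx ((List.range n).map F) i = F i := by
  rw [vx_map F _ i (by simpa using hi)]
  simp

/-- The pattern of the state `S` with all colours exchanged. -/
def stP (P : Pat) (S : ℕ) : Pat :=
  (List.range P.length).map
    (fun i => ⟨!colS P S i, if Nat.beq (typP P i) 2 then 2 else LB P S i, nbs P i⟩)

/-- The numbers of own neighbours in the state `S` are known and small. -/
def stPC (P : Pat) (S : ℕ) : Bool :=
  (List.range P.length).all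
    (fun i => Nat.beq (LB P S i) (UB P S i) && Nat.blt (2 * LB P S i) (degT (typP P i)))

variable {V : Type} [Fintype V] [DecidableEq V]
variable {G : SimpleGraph V} [DecidableRel G.Adj] {g : V → Bool} {P : Pat} {f : ℕ → V}

theorem length_stP (P : Pat) (S : ℕ) : (stP P S).length = P.length := by
  unfold stP
  rw [List.length_map, List.length_range]

theorem vx_stP (P : Pat) (S i : ℕ) (hi : i < P.length) :
    vx (stP P S) i =
      ⟨!colS P S i, if Nat.beq (typP P i) 2 then 2 else LB P S i, nbs P i⟩ := by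
  unfold stP
  rw [vx_map_range _ _ _ hi]

theorem Rea.stP (hx : Cx G) (h : Rea G g P f) {S : ℕ} (hS : stPC P S = true) :
    Rea G (neg (stC g P f S)) (stP P S) f := by
  have hlen := length_stP P S
  have hnb : ∀ i, i < P.length → nbs (Chk.stP P S) i = nbs P i := by
    intro i hi
    unfold nbs
    rw [vx_stP P S i hi]
    rfl
  unfold stPC at hS
  rw [List.all_eq_true] at hS
  refine ⟨?_, ?_, ?_, ?_, ?_, ?_, ?_⟩
  · intro i j hi hj
    rw [hlen] at hi hj
    exact h.inj i j hi hj
  · intro i hi
    rw [hlen] at hi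
    unfold colP
    rw [vx_stP P S i hi]
    show (!(stC g P f S (f i))) = !colS P S i
    rw [h.stC_col hi]
  · intro i hi j hj
    rw [hlen] at hi ⊢
    rw [hnb i hi] at hj
    exact h.lt i hi j hj
  · intro i hi j hj
    rw [hlen] at hi
    rw [hnb i hi] at hj
    exact h.adj i hi j hj
  · intro i hi j hj
    rw [hlen] at hi
    rw [hnb i hi] at hj
    rw [hnb j (h.lt i hi j hj)]
    exact h.sym i hi j hj
  · intro i hi
    rw [hlen] at hi
    rw [hnb i hi]
    exact h.nd i hi
  · intro i hi
    rw [hlen] at hi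
    have h1 := hS i (List.mem_range.2 hi)
    rw [Bool.and_eq_true, Nat.blt_eq] at h1
    have h2 := Nat.eq_of_beq_eq_true h1.1
    have h3 := h.LB_le hx hi S
    have h4 := h.le_UB hx hi S
    have h5 : (bad G (stC g P f S) (f i)).card = LB P S i := by omega
    have h6 : (bad G (neg (stC g P f S)) (f i)).card = LB P S i := by
      rw [bad_neg]
      exact h5
    have h7 := (h.typ i hi).deg
    have h8 := h1.2
    have ht : typP (Chk.stP P S) i = if Nat.beq (typP P i) 2 then 2 else LB P S i := by
      unfold typP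
      rw [vx_stP P S i hi]
      rfl
    rw [ht]
    rcases h.typ i hi with ⟨ht0, hd, _⟩ | ⟨ht0, hd, _⟩ | ⟨ht0, hd, _⟩
    · rw [ht0] at h8 ⊢
      simp only [degT] at h8
      have h9 : LB P S i = 0 ∨ LB P S i = 1 := by omega
      rcases h9 with h9 | h9
      · rw [h9] at h6 ⊢
        exact Or.inl ⟨rfl, hd, h6⟩
      · rw [h9] at h6 ⊢
        exact Or.inr (Or.inl ⟨rfl, hd, h6⟩)
    · rw [ht0] at h8 ⊢
      simp only [degT] at h8
      have h9 : LB P S i = 0 ∨ LB P S i = 1 := by omega
      rcases h9 with h9 | h9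
      · rw [h9] at h6 ⊢
        exact Or.inl ⟨rfl, hd, h6⟩
      · rw [h9] at h6 ⊢
        exact Or.inr (Or.inl ⟨rfl, hd, h6⟩)
    · rw [ht0] at h8 ⊢
      simp only [degT] at h8
      have h9 : LB P S i = 0 := by omega
      rw [h9] at h6
      exact Or.inr (Or.inr ⟨rfl, hd, h6⟩)

/-- The colouring of the state `15` is the other star colouring. -/
theorem Rea.du_eq (h : Rea G g P f) (h4 : 4 ≤ P.length) {a b : Fin 3 → V}
    (hF : Fr G g (f 0) (fun i => f (i + 1)) a b) :
    neg (stC g P f 15) = du g (f 0) (fun i : Fin 3 => f (i + 1)) := by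
  unfold du
  congr 1
  funext v
  have hm : v ∈ fl P f 15 ↔ v = f 0 ∨ ∃ i : Fin 3, v = f (i + 1) := by
    rw [mem_fl]
    constructor
    · rintro ⟨i, hi, h1, rfl⟩
      have h5 : i < 4 := by
        by_contra h6
        have h7 : (15 : ℕ) < 2 ^ i := lt_of_lt_of_le (by norm_num) (Nat.pow_le_pow_right (by norm_num) (not_lt.1 h6))
        rw [Nat.testBit_lt_two_pow h7] at h1
        exact absurd h1 (by decide)
      interval_cases i
      · exact Or.inl rfl
      · exact Or.inr ⟨0, rfl⟩
      · exact Or.inr ⟨1, rfl⟩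
      · exact Or.inr ⟨2, rfl⟩
    · rintro (rfl | ⟨i, rfl⟩)
      · exact ⟨0, by omega, by decide, rfl⟩
      · refine ⟨i + 1, by omega, ?_, rfl⟩
        fin_cases i <;> decide
  unfold stC flips
  rcases hF.star.cases v with hv | ⟨i, hv⟩ | hv
  · rw [if_pos (hm.2 (Or.inl hv)), hv, sc_x, hF.gx]
    rfl
  · rw [if_pos (hm.2 (Or.inr ⟨i, hv⟩)), hv, hF.star.sc_l]
    have := hF.gl i
    beta_reduce at this
    rw [this]
    rfl
  · rw [sc_rest hv, if_neg]
    intro h5
    rw [mem_rest] at hv
    rcases hm.1 h5 with h6 | ⟨i, h6⟩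
    · exact hv.1 h6
    · exact hv.2 i h6

end Pool.Agent.BLN.Chk
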