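import Pool.Agent.BLN.Chk.Own

set_option autoImplicit false
set_option linter.unusedSectionVars false
set_option linter.unreachableTactic false
set_option linter.unusedTactic false
set_option linter.deprecated false

/-!
Label certificates. A state is the colouring obtained from `g` by flipping the named vertices of a
bit mask. The energy of a state is bounded relative to the energy of `g` (in edges, so that the
critical energy is `2`). Along flips between states which are surely not critical and of energy at
most `2` the label is constant.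
-/

namespace Pool.Agent.BLN.Chk

open Finset Pool.Agent.IVT

/-- The colour of the named vertex `i` in the state `S`. -/
def colS (P : Pat) (S i : ℕ) : Bool := if S.testBit i = true then !colP P i else colP P i

/-- The sum of the state, if the sum of `g` is two. -/
def sI (P : Pat) (S : ℕ) : ℤ := 2 - 2 * sumS P S

/-- Surely flippable named vertices. -/
def sfL (P : Pat) (S : ℕ) : List ℕ :=
  (List.range P.length).filter (fun i => decide (degT (typP P i) < 2 * LB P S i))

/-- Possibly flippable named vertices. -/
def pfL (P : Pat) (S : ℕ) : List ℕ :=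
  (List.range P.length).filter (fun i => decide (degT (typP P i) < 2 * UB P S i))

/-- The named vertices `i`, `j` are surely not adjacent. -/
def nA (P : Pat) (i j : ℕ) : Bool :=
  !(nbs P i).contains j && (!okE P i j ||
    (if colP P i = colP P j then (slM P i == 0 || slM P j == 0) else (slO P i == 0 || slO P j == 0)))

/-- Three vertices which surely do not induce a path. -/
def bad3 (P : Pat) : List ℕ → Bool
  | [i, j, k] => (nA P i j && nA P i k) || (nA P i j && nA P j k) || (nA P i k && nA P j k) ||
      ((nbs P i).contains j && (nbs P i).contains k && (nbs P j).contains k)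
  | _ => false

/-- No unnamed vertex is flippable with the colour `t`. -/
def clo (P : Pat) (S : ℕ) (t : Bool) : Bool :=
  (List.range P.length).all (fun i => !S.testBit i || colP P i == t || slO P i == 0)

/-- The state is surely not critical. -/
def ncr (P : Pat) (S : ℕ) : Bool :=
  (decide (sI P S ≠ 2) && decide (sI P S ≠ -2)) ||
  (sfL P S).any (fun i => colS P S i != decide (sI P S = 2)) ||
  (List.range P.length).any (fun i => decide (3 ≤ LB P S i)) ||
  decide (4 ≤ (sfL P S).length) ||
  bad3 P (sfL P S) ||
  (clo P S (decide (sI P S = 2)) &&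
    (decide (((pfL P S).filter (fun i => colS P S i == decide (sI P S = 2))).length ≤ 2) ||
      bad3 P ((pfL P S).filter (fun i => colS P S i == decide (sI P S = 2)))))

/-- The label of the state is `t`: the potential shows that the other label is impossible. -/
def potC (P : Pat) (S : ℕ) (t : Bool) : Bool :=
  clo P S t && decide ((if t = true then - sI P S else sI P S) +
    2 * (((pfL P S).filter (fun i => colS P S i == t)).length : ℤ) < 2)

/-- The state is surely not critical (with the potential). -/
def ncr2 (P : Pat) (S : ℕ) : Bool := ncr P S || potC P S true || potC P S false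

/-- The energy of the next state. -/
def enN (P : Pat) (S : ℕ) (e : ℤ) (i : ℕ) : ℤ := e + degT (typP P i) - 2 * LB P S i

/-- A path of flips, only energies. -/
def enP (P : Pat) : ℕ → ℤ → List ℕ → Option (ℕ × ℤ)
  | S, e, [] => some (S, e)
  | S, e, i :: L => if i < P.length then enP P (tg S i) (enN P S e i) L else none

/-- A path of flips between states which are surely not critical and of energy at most two. -/
def pathP (P : Pat) : ℕ → ℤ → List ℕ → Option (ℕ × ℤ)
  | S, e, [] => some (S, e)
  | S, e, i :: L =>
    if i < P.length ∧ (enN P S e i ≤ 1 ∨ (enN P S e i = 2 ∧ ncr2 P (tg S i) = true)) then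
      pathP P (tg S i) (enN P S e i) L
    else none

/-- States with known label: `g` itself, `g` with the star flipped, and states whose label is
determined by the potential. -/
inductive Src where
  | plus : Src
  | minus : Src
  | pot : Bool → List ℕ → Src

def srcP (P : Pat) : Src → Option (Bool × ℕ × ℤ)
  | Src.plus => some (true, 0, 0)
  | Src.minus => some (false, 15, 0)
  | Src.pot s L =>
    match enP P 0 0 L with
    | some (S, e) => if e ≤ 2 ∧ potC P S s = true then some (s, S, e) else none
    | none => none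

/-- The label certificate: two paths with different labels to the same state. -/
def leafLL (P : Pat) (a : Src) (la : List ℕ) (b : Src) (lb : List ℕ) : Bool :=
  match srcP P a, srcP P b with
  | some (s, S, e), some (s', S', e') =>
    match pathP P S e la, pathP P S' e' lb with
    | some (T, _), some (T', _) => (s != s') && (T == T')
    | _, _ => false
  | _, _ => false

/-- The label certificate with two paths from the two star states. -/
def leafL (P : Pat) (la lb : List ℕ) : Bool := leafLL P Src.plus la Src.minus lb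

/-- A path from `g` to the colouring with the star flipped. -/
def pathA (P : Pat) (L : List ℕ) : Bool := leafL P L []

/-- A path from `g` to a state which surely has not the label of `g`. -/
def potP (P : Pat) (L : List ℕ) : Bool :=
  match pathP P 0 0 L with
  | some (T, _) => potC P T false
  | none => false

/-- A path from the colouring with the star flipped to a state which surely has not its label. -/
def potM (P : Pat) (L : List ℕ) : Bool :=
  match pathP P 15 0 L with
  | some (T, _) => potC P T true
  | none => false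

variable {V : Type} [Fintype V] [DecidableEq V]
variable {G : SimpleGraph V} [DecidableRel G.Adj] {g : V → Bool} {P : Pat} {f : ℕ → V}

theorem Rea.stC_col (h : Rea G g P f) {i : ℕ} (hi : i < P.length) (S : ℕ) :
    stC g P f S (f i) = colS P S i := by
  unfold stC flips colS
  by_cases hS : S.testBit i = true
  · have h1 : f i ∈ fl P f S := mem_fl.2 ⟨i, hi, hS, rfl⟩
    rw [if_pos h1, if_pos hS, h.col i hi]
  · have h1 : f i ∉ fl P f S := by
      intro h2
      obtain ⟨j, hj, hj2, hj3⟩ := mem_fl.1 h2
      have h3 := h.inj j i hj hi hj3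
      rw [h3] at hj2
      exact hS hj2
    rw [if_neg h1, if_neg hS, h.col i hi]

theorem Rea.nA_adj (hx : Cx G) (h : Rea G g P f) {i j : ℕ} (hi : i < P.length)
    (hj : j < P.length) (hn : nA P i j = true) : ¬ G.Adj (f i) (f j) := by
  unfold nA at hn
  rw [Bool.and_eq_true] at hn
  obtain ⟨h1, h2⟩ := hn
  have h1' : j ∉ nbs P i := by simpa using h1
  intro hadj
  rw [Rea.okE hx h hi hj hadj h1', Bool.not_true, Bool.false_or] at h2
  by_cases hc : colP P i = colP P j
  · rw [if_pos hc] at h2
    have h3 : f j ∈ bad G g (f i) \ im f (mP P i) := by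
      rw [Finset.mem_sdiff, mem_bad, h.col i hi, h.col j hj]
      refine ⟨⟨hadj, hc.symm⟩, fun h4 => ?_⟩
      obtain ⟨k, hk, hk2⟩ := mem_im.1 h4
      have h5 : k = j := h.inj k j (h.mP_lt hi k hk) hj hk2
      rw [h5] at hk
      exact h1' (mem_mP.1 hk).1
    have h4 := (h.uM_named hi hj h3).2.2
    have h5 := h.card_uM hi
    have h6 : (bad G g (f i) \ im f (mP P i)).card ≠ 0 := by
      intro h7
      rw [Finset.card_eq_zero] at h7
      rw [h7] at h3
      exact absurd h3 (Finset.notMem_empty _)
    simp only [Bool.or_eq_true, beq_iff_eq] at h2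
    rcases h2 with h2 | h2
    · omega
    · exact h4 h2
  · rw [if_neg hc] at h2
    have h3 : f j ∈ oN G g (f i) \ im f (oP P i) := by
      rw [Finset.mem_sdiff, mem_oN, h.col i hi, h.col j hj]
      refine ⟨⟨hadj, fun h9 => hc h9.symm⟩, fun h4 => ?_⟩
      obtain ⟨k, hk, hk2⟩ := mem_im.1 h4
      have h5 : k = j := h.inj k j (h.oP_lt hi k hk) hj hk2
      rw [h5] at hk
      exact h1' (mem_oP.1 hk).1
    have h4 := (h.uO_named hi hj h3).2.2
    have h5 := h.card_uO hi
    have h6 : (oN G g (f i) \ im f (oP P i)).card ≠ 0 := by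
      intro h7
      rw [Finset.card_eq_zero] at h7
      rw [h7] at h3
      exact absurd h3 (Finset.notMem_empty _)
    simp only [Bool.or_eq_true, beq_iff_eq] at h2
    rcases h2 with h2 | h2
    · omega
    · exact h4 h2

theorem Rea.sf (hx : Cx G) (h : Rea G g P f) {i : ℕ} {S : ℕ} (hi : i ∈ sfL P S) :
    i < P.length ∧ Fp G (stC g P f S) (f i) := by
  unfold sfL at hi
  rw [List.mem_filter, List.mem_range, decide_eq_true_eq] at hi
  refine ⟨hi.1, ?_⟩
  unfold Fp
  rw [(h.typ i hi.1).deg]
  have := h.LB_le hx hi.1 S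
  omega

theorem Rea.pf (hx : Cx G) (h : Rea G g P f) {i : ℕ} (hi : i < P.length) {S : ℕ}
    (hf : Fp G (stC g P f S) (f i)) : i ∈ pfL P S := by
  unfold pfL
  rw [List.mem_filter, List.mem_range, decide_eq_true_eq]
  refine ⟨hi, ?_⟩
  unfold Fp at hf
  rw [(h.typ i hi).deg] at hf
  have := h.le_UB hx hi S
  omega

/-- An unnamed flippable vertex has a flipped named neighbour of the other colour. -/
theorem Rea.unnamed (hg : Valid3 G g) (h : Rea G g P f) {S : ℕ} {w : V}
    (hw : ∀ i, i < P.length → f i ≠ w) (hf : Fp G (stC g P f S) w) :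
    ∃ i, i < P.length ∧ S.testBit i = true ∧ colP P i ≠ stC g P f S w ∧ slO P i ≠ 0 := by
  have hwS : w ∉ fl P f S := by
    intro h2
    obtain ⟨j, hj, _, hj3⟩ := mem_fl.1 h2
    exact hw j hj hj3
  have hst : stC g P f S w = g w := by
    unfold stC flips
    rw [if_neg hwS]
  by_contra hcon
  push Not at hcon
  have hsub : bad G (stC g P f S) w ⊆ bad G g w := by
    intro u hu
    rw [mem_bad] at hu ⊢
    refine ⟨hu.1, ?_⟩
    by_cases huS : u ∈ fl P f S
    · exfalso
      obtain ⟨i, hi, hi2, hi3⟩ := mem_fl.1 huS
      have h1 : stC g P f S u = !g u := by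
        unfold stC flips
        rw [if_pos huS]
      have h2 : g u ≠ g w := by
        rw [h1, hst] at hu
        intro h3
        rw [h3] at hu
        exact absurd hu.2 (by cases g w <;> simp)
      have h3 : colP P i ≠ stC g P f S w := by
        rw [hst, ← h.col i hi, hi3]
        exact h2
      have h4 := hcon i hi hi2 h3
      have h5 : w ∈ oN G g (f i) \ im f (oP P i) := by
        rw [Finset.mem_sdiff, mem_oN, hi3]
        refine ⟨⟨hu.1.symm, fun h6 => h2 h6.symm⟩, fun h6 => ?_⟩
        obtain ⟨k, hk, hk2⟩ := mem_im.1 h6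
        exact hw k (h.oP_lt hi k hk) hk2
      have h6 := h.card_uO hi
      rw [h4, Finset.card_eq_zero] at h6
      rw [h6] at h5
      exact absurd h5 (Finset.notMem_empty _)
    · have h1 : stC g P f S u = g u := by
        unfold stC flips
        rw [if_neg huS]
      rw [h1, hst] at hu
      exact hu.2
  have h1 := Finset.card_le_card hsub
  have h2 := hg w
  unfold Fp at hf
  omega

/-- If `clo` holds, the flippable vertices of colour `t` are named. -/
theorem Rea.clo_named (hx : Cx G) (hg : Valid3 G g) (h : Rea G g P f) {S : ℕ} {t : Bool}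
    (hc : clo P S t = true) {w : V} (hf : Fp G (stC g P f S) w) (hwt : stC g P f S w = t) :
    ∃ i, i ∈ pfL P S ∧ f i = w ∧ colS P S i = t := by
  by_cases hw : ∃ i, i < P.length ∧ f i = w
  · obtain ⟨i, hi, rfl⟩ := hw
    refine ⟨i, h.pf hx hi hf, rfl, ?_⟩
    rw [← h.stC_col hi S]
    exact hwt
  · push Not at hw
    exfalso
    obtain ⟨i, hi, hi2, hi3, hi4⟩ := h.unnamed hg hw hf
    unfold clo at hc
    rw [List.all_eq_true] at hc
    have h1 := hc i (List.mem_range.2 hi)
    rw [hi2] at h1
    rw [hwt] at hi3
    simp only [Bool.not_true, Bool.false_or, Bool.or_eq_true, beq_iff_eq] at h1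
    rcases h1 with h1 | h1
    · exact hi3 h1
    · exact hi4 h1

theorem Rea.potC_lab (hx : Cx G) (hg : Valid3 G g) (h : Rea G g P f)
    (hs : sgn true g = 2) {S : ℕ} {t : Bool} (hn : potC P S t = true) :
    ¬ Lab3 G (!t) (stC g P f S) := by
  rintro ⟨d, hd1, hd2, hd3⟩
  have hsum := h.sgn_stC S
  rw [hs] at hsum
  unfold potC at hn
  rw [Bool.and_eq_true, decide_eq_true_eq] at hn
  obtain ⟨hn1, hn2⟩ := hn
  have h1 := pot_reach3 G hx.deg (!t) hd1
  rw [Bool.not_not] at h1
  have h2 : sgn (!t) (stC g P f S) = (if t = true then - sI P S else sI P S) := by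
    unfold sI
    cases t
    · simp only [Bool.not_false, hsum]
      simp
    · have h2 : sgn false (stC g P f S) = - sgn true (stC g P f S) := sgn_not true _
      simp only [Bool.not_true, h2, hsum]
      simp
  have h3 : (Fl3 G t (stC g P f S)).card ≤
      ((pfL P S).filter (fun i => colS P S i == t)).length := by
    have h4 : Fl3 G t (stC g P f S) ⊆
        (((pfL P S).filter (fun i => colS P S i == t)).toFinset).image f := by
      intro w hw
      rw [mem_Fl3] at hw
      obtain ⟨i, hi1, hi2, hi3⟩ := h.clo_named hx hg hn1 hw.1 hw.2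
      rw [Finset.mem_image]
      refine ⟨i, ?_, hi2⟩
      rw [List.mem_toFinset, List.mem_filter]
      exact ⟨hi1, by simp [hi3]⟩
    exact (Finset.card_le_card h4).trans (Finset.card_image_le.trans (List.toFinset_card_le _))
  have h5 : ((Fl3 G t (stC g P f S)).card : ℤ) ≤
      (((pfL P S).filter (fun i => colS P S i == t)).length : ℤ) := by exact_mod_cast h3
  rw [h2] at h1
  linarith

/-- The shape of a critical colouring: three flippable vertices which induce a path. -/
theorem Rea.bad3_false (hx : Cx G) (h : Rea G g P f) {i j k : ℕ} (hi : i < P.length) (hj : j < P.length)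
    (hk : k < P.length) (hb : bad3 P [i, j, k] = true) {p q q' : V} (hpq : G.Adj p q)
    (hpq' : G.Adj p q') (hqq : ¬ G.Adj q q') (hne : q ≠ q')
    (hp1 : p = f i ∨ p = f j ∨ p = f k) (hq1 : q = f i ∨ q = f j ∨ q = f k)
    (hq1' : q' = f i ∨ q' = f j ∨ q' = f k) : False := by
  have n1 : nA P i j = true → ¬ G.Adj (f i) (f j) := h.nA_adj hx hi hj
  have n2 : nA P i k = true → ¬ G.Adj (f i) (f k) := h.nA_adj hx hi hk
  have n3 : nA P j k = true → ¬ G.Adj (f j) (f k) := h.nA_adj hx hj hk
  have c1 : (nbs P i).contains j = true → G.Adj (f i) (f j) := fun h1 =>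
    h.adj i hi j (by simpa using h1)
  have c2 : (nbs P i).contains k = true → G.Adj (f i) (f k) := fun h1 =>
    h.adj i hi k (by simpa using h1)
  have c3 : (nbs P j).contains k = true → G.Adj (f j) (f k) := fun h1 =>
    h.adj j hj k (by simpa using h1)
  have hpn : p ≠ q := hpq.ne
  have hpn' : p ≠ q' := hpq'.ne
  simp only [bad3, Bool.or_eq_true, Bool.and_eq_true] at hb
  have hqq2 : ¬ G.Adj q' q := fun h1 => hqq h1.symm
  rcases hp1 with rfl | rfl | rfl <;> rcases hq1 with rfl | rfl | rfl <;>
    rcases hq1' with rfl | rfl | rfl <;>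
    first
      | exact absurd rfl hpn
      | exact absurd rfl hpn'
      | exact absurd rfl hne
      | (rcases hb with ((⟨h1, h2⟩ | ⟨h1, h2⟩) | ⟨h1, h2⟩) | ⟨⟨h1, h2⟩, h3⟩
         · first
            | exact n1 h1 hpq
            | exact n1 h1 hpq'
            | exact n1 h1 hpq.symm
            | exact n1 h1 hpq'.symm
            | exact n2 h2 hpq
            | exact n2 h2 hpq'
            | exact n2 h2 hpq.symm
            | exact n2 h2 hpq'.symm
         · first
            | exact n1 h1 hpq
            | exact n1 h1 hpq'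
            | exact n1 h1 hpq.symm
            | exact n1 h1 hpq'.symm
            | exact n3 h2 hpq
            | exact n3 h2 hpq'
            | exact n3 h2 hpq.symm
            | exact n3 h2 hpq'.symm
         · first
            | exact n2 h1 hpq
            | exact n2 h1 hpq'
            | exact n2 h1 hpq.symm
            | exact n2 h1 hpq'.symm
            | exact n3 h2 hpq
            | exact n3 h2 hpq'
            | exact n3 h2 hpq.symm
            | exact n3 h2 hpq'.symm
         · first
            | exact hqq (c1 h1)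
            | exact hqq2 (c1 h1)
            | exact hqq (c2 h2)
            | exact hqq2 (c2 h2)
            | exact hqq (c3 h3)
            | exact hqq2 (c3 h3))

theorem nodup_filter_range (n : ℕ) (p : ℕ → Bool) : ((List.range n).filter p).Nodup :=
  (List.nodup_range).filter p

/-- A list with `ncr` is not critical. -/
theorem Rea.ncr_sound (hx : Cx G) (hB : NoBal3 G) (hg : Valid3 G g) (h : Rea G g P f)
    (hs : sgn true g = 2) {S : ℕ} (hn : ncr P S = true) : ¬ Crit3 G (stC g P f S) := by
  intro hd
  obtain ⟨e, p, q, q', r, hS⟩ := saddle_one3 G hx.deg hB hx.c4 hd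
  have hsum := h.sgn_stC S
  rw [hs] at hsum
  have hsI : sgn true (stC g P f S) = sI P S := hsum
  have hcol : ∀ v, Fp G (stC g P f S) v → stC g P f S v = decide (sI P S = 2) ∧
      (sI P S = 2 ∨ sI P S = -2) := by
    intro v hv
    have h1 := hd.sum_eq G hx.deg hB hx.c4 hv
    cases hvc : stC g P f S v
    · rw [hvc] at h1
      have h2 : sgn false (stC g P f S) = - sgn true (stC g P f S) := sgn_not true _
      rw [h2, hsI] at h1
      have h3 : sI P S = -2 := by omega
      refine ⟨?_, Or.inr h3⟩
      rw [h3]
      decide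
    · rw [hvc, hsI] at h1
      exact ⟨by simp [h1], Or.inl h1⟩
  have hfp : Fp G (stC g P f S) p := (hS.fl p).2 (Or.inl rfl)
  have hfq : Fp G (stC g P f S) q := (hS.fl q).2 (Or.inr (Or.inl rfl))
  have hfq' : Fp G (stC g P f S) q' := (hS.fl q').2 (Or.inr (Or.inr rfl))
  have hpq := hS.np.ax
  have hpq' := hS.np.ay
  have hqq' := hS.np.xy
  -- three flippable vertices are p, q, q'
  have hthree : ∀ i j k, i ∈ sfL P S → j ∈ sfL P S → k ∈ sfL P S → i ≠ j → i ≠ k → j ≠ k →
      (p = f i ∨ p = f j ∨ p = f k) ∧ (q = f i ∨ q = f j ∨ q = f k) ∧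
        (q' = f i ∨ q' = f j ∨ q' = f k) := by
    intro i j k hi hj hk hij hik hjk
    obtain ⟨hi1, hi2⟩ := h.sf hx hi
    obtain ⟨hj1, hj2⟩ := h.sf hx hj
    obtain ⟨hk1, hk2⟩ := h.sf hx hk
    have e1 : f i ≠ f j := fun h1 => hij (h.inj i j hi1 hj1 h1)
    have e2 : f i ≠ f k := fun h1 => hik (h.inj i k hi1 hk1 h1)
    have e3 : f j ≠ f k := fun h1 => hjk (h.inj j k hj1 hk1 h1)
    have hsub : ({f i, f j, f k} : Finset V) ⊆ {p, q, q'} := by
      intro v hv
      simp only [Finset.mem_insert, Finset.mem_singleton] at hv ⊢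
      rcases hv with rfl | rfl | rfl
      · exact (hS.fl _).1 hi2
      · exact (hS.fl _).1 hj2
      · exact (hS.fl _).1 hk2
    have hc1 : ({f i, f j, f k} : Finset V).card = 3 := Finset.card_eq_three.2
      ⟨_, _, _, e1, e2, e3, rfl⟩
    have hc2 : ({p, q, q'} : Finset V).card = 3 := Finset.card_eq_three.2
      ⟨_, _, _, hpq.ne, hpq'.ne, hqq', rfl⟩
    have heq := Finset.eq_of_subset_of_card_le hsub (by rw [hc1, hc2])
    have hm : ∀ v ∈ ({p, q, q'} : Finset V), v = f i ∨ v = f j ∨ v = f k := by
      intro v hv
      rw [← heq] at hv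
      simpa using hv
    exact ⟨hm p (by simp), hm q (by simp), hm q' (by simp)⟩
  have hsfn : (sfL P S).Nodup := nodup_filter_range _ _
  unfold ncr at hn
  simp only [Bool.or_eq_true, Bool.and_eq_true, decide_eq_true_eq] at hn
  rcases hn with ((((hn | hn) | hn) | hn) | hn) | hn
  · rcases (hcol p hfp).2 with h1 | h1
    · exact hn.1 h1
    · exact hn.2 h1
  · rw [List.any_eq_true] at hn
    obtain ⟨i, hi, hi2⟩ := hn
    obtain ⟨hi1, hi3⟩ := h.sf hx hi
    have h1 := (hcol _ hi3).1
    rw [h.stC_col hi1] at h1
    rw [h1] at hi2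
    simp at hi2
  · rw [List.any_eq_true] at hn
    obtain ⟨i, hi, hi2⟩ := hn
    rw [List.mem_range] at hi
    rw [decide_eq_true_eq] at hi2
    have h1 := h.LB_le hx hi S
    have h2 := bad_le_degree G (stC g P f S) (f i)
    have h3 : G.degree (f i) ≤ 3 := by rcases hx.deg (f i) with h3 | h3 <;> omega
    exact not_crit_of_three G hx.deg hB (show (bad G (stC g P f S) (f i)).card = 3 by omega) hd
  · -- four flippable vertices
    have hsub : (sfL P S).toFinset.image f ⊆ ({p, q, q'} : Finset V) := by
      intro v hv
      obtain ⟨i, hi, rfl⟩ := Finset.mem_image.1 hv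
      rw [List.mem_toFinset] at hi
      have h1 := (hS.fl _).1 (h.sf hx hi).2
      simpa using h1
    have hc1 : ((sfL P S).toFinset.image f).card = (sfL P S).length := by
      rw [Finset.card_image_of_injOn, List.toFinset_card_of_nodup hsfn]
      intro a ha b hb hab
      simp only [List.coe_toFinset, Set.mem_setOf_eq] at ha hb
      exact h.inj a b (h.sf hx ha).1 (h.sf hx hb).1 hab
    have hc2 := Finset.card_le_card hsub
    have hc3 : ({p, q, q'} : Finset V).card ≤ 3 := Finset.card_le_three
    omega
  · -- three surely flippable ones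
    revert hn
    generalize hL : sfL P S = L
    rw [hL] at hsfn
    intro hn
    match L, hn, hL, hsfn with
    | [i, j, k], hn, hL, hsfn =>
      have hij : i ≠ j ∧ i ≠ k ∧ j ≠ k := by
        simp only [List.nodup_cons, List.mem_cons, List.not_mem_nil, or_false, not_or,
          List.nodup_nil, and_true, not_false_eq_true] at hsfn
        exact ⟨hsfn.1.1, hsfn.1.2, hsfn.2⟩
      have mi : i ∈ sfL P S := by rw [hL]; simp
      have mj : j ∈ sfL P S := by rw [hL]; simp
      have mk : k ∈ sfL P S := by rw [hL]; simp
      obtain ⟨h1, h2, h3⟩ := hthree i j k mi mj mk hij.1 hij.2.1 hij.2.2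
      exact h.bad3_false hx (h.sf hx mi).1 (h.sf hx mj).1 (h.sf hx mk).1 hn hpq hpq' hS.nqq hqq'
        h1 h2 h3
    | [], hn, _, _ => simp [bad3] at hn
    | [_], hn, _, _ => simp [bad3] at hn
    | [_, _], hn, _, _ => simp [bad3] at hn
    | _ :: _ :: _ :: _ :: _, hn, _, _ => simp [bad3] at hn
  · -- closed
    obtain ⟨hclo, hn⟩ := hn
    have hin : ∀ v, Fp G (stC g P f S) v → ∃ i, i ∈ (pfL P S).filter
        (fun i => colS P S i == decide (sI P S = 2)) ∧ f i = v := by
      intro v hv
      obtain ⟨i, hi1, hi2, hi3⟩ := h.clo_named hx hg hclo hv (hcol v hv).1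
      refine ⟨i, ?_, hi2⟩
      rw [List.mem_filter]
      exact ⟨hi1, by simp [hi3]⟩
    have hnd : ((pfL P S).filter (fun i => colS P S i == decide (sI P S = 2))).Nodup :=
      (nodup_filter_range _ _).filter _
    have hlt : ∀ i ∈ (pfL P S).filter (fun i => colS P S i == decide (sI P S = 2)),
        i < P.length := by
      intro i hi
      rw [List.mem_filter] at hi
      have h1 := hi.1
      unfold pfL at h1
      rw [List.mem_filter, List.mem_range] at h1
      exact h1.1
    generalize hL : (pfL P S).filter (fun i => colS P S i == decide (sI P S = 2)) = L at *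
    obtain ⟨a, ha1, ha2⟩ := hin p hfp
    obtain ⟨b, hb1, hb2⟩ := hin q hfq
    obtain ⟨c, hc1, hc2⟩ := hin q' hfq'
    have hab : a ≠ b := by rintro rfl; exact hpq.ne (ha2.symm.trans hb2)
    have hac : a ≠ c := by rintro rfl; exact hpq'.ne (ha2.symm.trans hc2)
    have hbc : b ≠ c := by rintro rfl; exact hqq' (hb2.symm.trans hc2)
    rcases hn with hn | hn
    · have h1 : ({a, b, c} : Finset ℕ) ⊆ L.toFinset := by
        intro v hv
        simp only [Finset.mem_insert, Finset.mem_singleton] at hv
        rw [List.mem_toFinset]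
        rcases hv with rfl | rfl | rfl <;> assumption
      have h2 := Finset.card_le_card h1
      rw [List.toFinset_card_of_nodup hnd, Finset.card_eq_three.2
        ⟨_, _, _, hab, hac, hbc, rfl⟩] at h2
      omega
    · match L, hn, hlt, ha1, hb1, hc1 with
      | [i, j, k], hn, hlt, ha1, hb1, hc1 =>
        simp only [List.mem_cons, List.not_mem_nil, or_false] at ha1 hb1 hc1
        refine h.bad3_false hx (hlt i (by simp)) (hlt j (by simp)) (hlt k (by simp)) hn hpq hpq'
          hS.nqq hqq' ?_ ?_ ?_
        · rw [← ha2]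
          rcases ha1 with rfl | rfl | rfl <;> simp
        · rw [← hb2]
          rcases hb1 with rfl | rfl | rfl <;> simp
        · rw [← hc2]
          rcases hc1 with rfl | rfl | rfl <;> simp
      | [], hn, _, _, _, _ => simp [bad3] at hn
      | [_], hn, _, _, _, _ => simp [bad3] at hn
      | [_, _], hn, _, _, _, _ => simp [bad3] at hn
      | _ :: _ :: _ :: _ :: _, hn, _, _, _, _ => simp [bad3] at hn

theorem Rea.ncr2_sound (hx : Cx G) (hB : NoBal3 G) (hg : Valid3 G g) (h : Rea G g P f)
    (hs : sgn true g = 2) {S : ℕ} (hn : ncr2 P S = true) : ¬ Crit3 G (stC g P f S) := by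
  unfold ncr2 at hn
  rw [Bool.or_eq_true, Bool.or_eq_true] at hn
  intro hc
  rcases hn with (h1 | h1) | h1
  · exact h.ncr_sound hx hB hg hs h1 hc
  · exact h.potC_lab hx hg hs h1 (hc.lab _)
  · exact h.potC_lab hx hg hs h1 (hc.lab _)

/-- The label `s` and the energy bound `e` of the state `S`. -/
structure LI (G : SimpleGraph V) [DecidableRel G.Adj] (g : V → Bool) (P : Pat) (f : ℕ → V)
    (s : Bool) (S : ℕ) (e : ℤ) : Prop where
  lab : Lab3 G s (stC g P f S)
  en : (En G (stC g P f S) : ℤ) ≤ En G g + 2 * e
  nc : ¬ Crit3 G (stC g P f S)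
  le : e ≤ 2

theorem Rea.enN_sound (hx : Cx G) (h : Rea G g P f) {i : ℕ} (hi : i < P.length) {S : ℕ} {e : ℤ}
    (he : (En G (stC g P f S) : ℤ) ≤ En G g + 2 * e) :
    (En G (stC g P f (tg S i)) : ℤ) ≤ En G g + 2 * enN P S e i := by
  rw [h.stC_tg hi, En_flip3]
  have h1 := h.LB_le hx hi S
  have h2 := (h.typ i hi).deg
  unfold enN
  rw [h2]
  push_cast
  have h3 : ((LB P S i : ℕ) : ℤ) ≤ ((bad G (stC g P f S) (f i)).card : ℤ) := by exact_mod_cast h1
  linarith

theorem nc_of_le {c0 d : V → Bool} (hc : Crit3 G c0) (hE : En G g + 4 = En G c0) {e : ℤ}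
    (h1 : (En G d : ℤ) ≤ En G g + 2 * e) (h2 : e ≤ 1) : ¬ Crit3 G d := by
  refine hc.not_of_lt G ?_
  have h3 : (En G c0 : ℤ) = En G g + 4 := by exact_mod_cast hE.symm
  have h4 : (En G d : ℤ) < En G c0 := by rw [h3]; linarith
  exact_mod_cast h4

theorem le_crit {c0 d : V → Bool} (hE : En G g + 4 = En G c0) {e : ℤ}
    (h1 : (En G d : ℤ) ≤ En G g + 2 * e) (h2 : e ≤ 2) : En G d ≤ En G c0 := by
  have h3 : (En G c0 : ℤ) = En G g + 4 := by exact_mod_cast hE.symm
  have h4 : (En G d : ℤ) ≤ En G c0 := by rw [h3]; linarith
  exact_mod_cast h4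

theorem Rea.path_sound (hx : Cx G) (hB : NoBal3 G) (hg : Valid3 G g) (h : Rea G g P f)
    (hs : sgn true g = 2) {c0 : V → Bool} (hc : Crit3 G c0) (hE : En G g + 4 = En G c0)
    {s : Bool} (L : List ℕ) : ∀ {S : ℕ} {e : ℤ} {T : ℕ} {e' : ℤ}, LI G g P f s S e →
      pathP P S e L = some (T, e') → LI G g P f s T e' := by
  induction L with
  | nil =>
    intro S e T e' hI hp
    simp only [pathP, Option.some.injEq, Prod.mk.injEq] at hp
    obtain ⟨rfl, rfl⟩ := hp
    exact hI
  | cons i L ih =>
    intro S e T e' hI hp
    rw [pathP] at hp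
    split_ifs at hp with hcond
    obtain ⟨hi, hcond⟩ := hcond
    refine ih ?_ hp
    have hen := h.enN_sound hx hi hI.en
    have hle : enN P S e i ≤ 2 := by
      rcases hcond with h1 | h1
      · omega
      · exact h1.1.le
    have hnc : ¬ Crit3 G (stC g P f (tg S i)) := by
      rcases hcond with h1 | h1
      · exact nc_of_le hc hE hen h1
      · exact h.ncr2_sound hx hB hg hs h1.2
    refine ⟨?_, hen, hnc, hle⟩
    have h1 := h.stC_tg hi S
    rw [h1]
    rw [h1] at hnc hen
    exact hc.lab_step G hx.deg hB _ (le_crit hE hI.en hI.le) (le_crit hE hen hle) hI.nc hnc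
      hI.lab

theorem Rea.enP_sound (hx : Cx G) (h : Rea G g P f) (L : List ℕ) :
    ∀ {S : ℕ} {e : ℤ} {T : ℕ} {e' : ℤ}, (En G (stC g P f S) : ℤ) ≤ En G g + 2 * e →
      enP P S e L = some (T, e') → (En G (stC g P f T) : ℤ) ≤ En G g + 2 * e' := by
  induction L with
  | nil =>
    intro S e T e' hI hp
    simp only [enP, Option.some.injEq, Prod.mk.injEq] at hp
    obtain ⟨rfl, rfl⟩ := hp
    exact hI
  | cons i L ih =>
    intro S e T e' hI hp
    rw [enP] at hp
    split_ifs at hp with hi
    exact ih (h.enN_sound hx hi hI) hp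

/-- The assumptions on the star: the first four named vertices are the centre and the leaves, and
the colouring with the star flipped has the other label and the same energy. -/
structure Base (G : SimpleGraph V) [DecidableRel G.Adj] (g : V → Bool) (P : Pat) (f : ℕ → V)
    (c0 : V → Bool) : Prop where
  cx : Cx G
  nb : NoBal3 G
  val : Valid3 G g
  sum : sgn true g = 2
  crit : Crit3 G c0
  en : En G g + 4 = En G c0
  minus : Lab3 G false (stC g P f 15)
  enm : En G (stC g P f 15) = En G g

theorem Base.src {c0 : V → Bool} (hb : Base G g P f c0) (h : Rea G g P f) {a : Src} {s : Bool}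
    {S : ℕ} {e : ℤ} (ha : srcP P a = some (s, S, e)) : LI G g P f s S e := by
  cases a with
  | plus =>
    simp only [srcP, Option.some.injEq, Prod.mk.injEq] at ha
    obtain ⟨rfl, rfl, rfl⟩ := ha
    have h0 : stC g P f 0 = g := stC_zero
    have h1 : (En G (stC g P f 0) : ℤ) ≤ En G g + 2 * 0 := by rw [h0]; simp
    refine ⟨?_, h1, nc_of_le hb.crit hb.en h1 (by norm_num), by norm_num⟩
    rw [h0]
    exact Lab3.of_valid G hb.val (by rw [hb.sum])
  | minus =>
    simp only [srcP, Option.some.injEq, Prod.mk.injEq] at ha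
    obtain ⟨rfl, rfl, rfl⟩ := ha
    have h1 : (En G (stC g P f 15) : ℤ) ≤ En G g + 2 * 0 := by rw [hb.enm]; simp
    exact ⟨hb.minus, h1, nc_of_le hb.crit hb.en h1 (by norm_num), by norm_num⟩
  | pot t L =>
    rw [srcP] at ha
    split at ha
    · rename_i T e1 hp
      split_ifs at ha with hcond
      simp only [Option.some.injEq, Prod.mk.injEq] at ha
      obtain ⟨rfl, rfl, rfl⟩ := ha
      obtain ⟨h1, h3⟩ := hcond
      have h0 : stC g P f 0 = g := stC_zero
      have h4 : (En G (stC g P f T) : ℤ) ≤ En G g + 2 * e1 :=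
        h.enP_sound hb.cx L (S := 0) (e := 0) (by rw [h0]; simp) hp
      have h5 := h.potC_lab hb.cx hb.val hb.sum h3
      refine ⟨?_, h4, fun h6 => h5 (h6.lab _), h1⟩
      rcases lab_or3 G hb.cx.deg hb.nb t (stC g P f T) with h6 | h6
      · exact h6
      · exact absurd h6 h5
    · simp at ha

/-- Soundness of the label certificate. -/
theorem Base.leafLL_false {c0 : V → Bool} (hb : Base G g P f c0) (h : Rea G g P f)
    {a b : Src} {la lb : List ℕ} (hl : leafLL P a la b lb = true) : False := by
  unfold leafLL at hl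
  split at hl
  · rename_i s S e s' S' e' ha hb'
    split at hl
    · rename_i T e1 T' e2 hp hp'
      rw [Bool.and_eq_true] at hl
      obtain ⟨h1, h2⟩ := hl
      have hT : T = T' := by simpa using h2
      have hss : s ≠ s' := by simpa using h1
      subst hT
      have hI1 := h.path_sound hb.cx hb.nb hb.val hb.sum hb.crit hb.en la (hb.src h ha) hp
      have hI2 := h.path_sound hb.cx hb.nb hb.val hb.sum hb.crit hb.en lb (hb.src h hb') hp'
      have h3 : s' = !s := by
        cases s <;> cases s' <;> simp_all
      rw [h3] at hI2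
      exact hI1.nc (hb.crit.of G (le_crit hb.en hI1.en hI1.le) s hI1.lab hI2.lab)
    · simp at hl
  · simp at hl

theorem Base.leafL_false {c0 : V → Bool} (hb : Base G g P f c0) (h : Rea G g P f)
    {la lb : List ℕ} (hl : leafL P la lb = true) : False :=
  hb.leafLL_false h hl

theorem Base.pathA_false {c0 : V → Bool} (hb : Base G g P f c0) (h : Rea G g P f)
    {L : List ℕ} (hl : pathA P L = true) : False := hb.leafL_false h hl

theorem Base.potP_false {c0 : V → Bool} (hb : Base G g P f c0) (h : Rea G g P f)
    {L : List ℕ} (hl : potP P L = true) : False := by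
  unfold potP at hl
  split at hl
  · rename_i T e hp
    have h1 := h.path_sound hb.cx hb.nb hb.val hb.sum hb.crit hb.en L
      (hb.src h (a := Src.plus) rfl) hp
    exact h.potC_lab hb.cx hb.val hb.sum hl h1.lab
  · simp at hl

theorem Base.potM_false {c0 : V → Bool} (hb : Base G g P f c0) (h : Rea G g P f)
    {L : List ℕ} (hl : potM P L = true) : False := by
  unfold potM at hl
  split at hl
  · rename_i T e hp
    have h1 := h.path_sound hb.cx hb.nb hb.val hb.sum hb.crit hb.en L
      (hb.src h (a := Src.minus) rfl) hp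
    exact h.potC_lab hb.cx hb.val hb.sum hl h1.lab
  · simp at hl

end Pool.Agent.BLN.Chk
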