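import Pool.Agent.BLN.Chk.Run
import Pool.Agent.BLN.Chk.Lab
import Pool.Agent.BLN.Move

set_option autoImplicit false
set_option linter.unusedSectionVars false

/-!
Renaming and weakening of patterns, change of the star, and the dual pattern.
-/

namespace Pool.Agent.BLN.Chk

open Finset Pool.Agent.IVT

def nodupB : List ℕ → Bool
  | [] => true
  | a :: A => !A.contains a && nodupB A

theorem nodupB_iff (A : List ℕ) : nodupB A = true ↔ A.Nodup := by
  induction A with
  | nil => simp [nodupB]
  | cons a A ih => simp [nodupB, ih]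

def pick : List ℕ → ℕ → ℕ
  | [], _ => 0
  | a :: _, 0 => a
  | _ :: A, i + 1 => pick A i

theorem pick_mem (s : List ℕ) (i : ℕ) (hi : i < s.length) : pick s i ∈ s := by
  induction s generalizing i with
  | nil => simp at hi
  | cons a s ih =>
    cases i with
    | zero => simp [pick]
    | succ i => exact List.mem_cons_of_mem _ (ih i (by simpa using hi))

theorem pick_inj (s : List ℕ) (hs : s.Nodup) (i j : ℕ) (hi : i < s.length) (hj : j < s.length)
    (h : pick s i = pick s j) : i = j := by
  induction s generalizing i j with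
  | nil => simp at hi
  | cons a s ih =>
    rw [List.nodup_cons] at hs
    cases i with
    | zero =>
      cases j with
      | zero => rfl
      | succ j =>
        exfalso
        apply hs.1
        have h1 : a = pick s j := h
        rw [h1]
        exact pick_mem s j (by simpa using hj)
    | succ i =>
      cases j with
      | zero =>
        exfalso
        apply hs.1
        have h1 : pick s i = a := h
        rw [← h1]
        exact pick_mem s i (by simpa using hi)
      | succ j =>
        have := ih hs.2 i j (by simpa using hi) (by simpa using hj) h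
        omega

/-- A well formed pattern. -/
def wfP (Q : Pat) : Bool :=
  (List.range Q.length).all (fun i =>
    (nbs Q i).all (fun j => Nat.blt j Q.length && (nbs Q j).contains i) && nodupB (nbs Q i))

/-- The pattern `Q` is contained in `P` by the map `s` of names. -/
def embC (Q P : Pat) (s : List ℕ) : Bool :=
  Nat.beq s.length Q.length && nodupB s && wfP Q &&
  (List.range Q.length).all (fun i =>
    Nat.blt (pick s i) P.length && eqB (colP P (pick s i)) (colP Q i) &&
    Nat.beq (typP P (pick s i)) (typP Q i) &&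
    (nbs Q i).all (fun j => (nbs P (pick s i)).contains (pick s j)))

variable {V : Type} [Fintype V] [DecidableEq V]
variable {G : SimpleGraph V} [DecidableRel G.Adj] {g : V → Bool} {P : Pat} {f : ℕ → V}

theorem Rea.emb (h : Rea G g P f) {Q : Pat} {s : List ℕ} (hs : embC Q P s = true) :
    Rea G g Q (fun i => f (pick s i)) := by
  unfold embC at hs
  simp only [Bool.and_eq_true] at hs
  obtain ⟨⟨⟨hlen, hnd⟩, hwf⟩, hall⟩ := hs
  have hlen' := Nat.eq_of_beq_eq_true hlen
  rw [nodupB_iff] at hnd
  unfold wfP at hwf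
  rw [List.all_eq_true] at hwf hall
  have hwf' : ∀ i, i < Q.length → (∀ j ∈ nbs Q i, j < Q.length ∧ i ∈ nbs Q j) ∧ (nbs Q i).Nodup := by
    intro i hi
    have h1 := hwf i (List.mem_range.2 hi)
    rw [Bool.and_eq_true, List.all_eq_true, nodupB_iff] at h1
    refine ⟨fun j hj => ?_, h1.2⟩
    have h2 := h1.1 j hj
    rw [Bool.and_eq_true, Nat.blt_eq] at h2
    exact ⟨h2.1, by simpa using h2.2⟩
  have hall' : ∀ i, i < Q.length → pick s i < P.length ∧ colP P (pick s i) = colP Q i ∧
      typP P (pick s i) = typP Q i ∧ ∀ j ∈ nbs Q i, pick s j ∈ nbs P (pick s i) := by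
    intro i hi
    have h1 := hall i (List.mem_range.2 hi)
    simp only [Bool.and_eq_true, Nat.blt_eq] at h1
    obtain ⟨⟨⟨h2, h3⟩, h4⟩, h5⟩ := h1
    rw [List.all_eq_true] at h5
    exact ⟨h2, eqB_eq _ _ h3, Nat.eq_of_beq_eq_true h4, fun j hj => by simpa using h5 j hj⟩
  refine ⟨?_, ?_, ?_, ?_, ?_, ?_, ?_⟩
  · intro i j hi hj hij
    exact pick_inj s hnd i j (by omega) (by omega) (h.inj _ _ (hall' i hi).1 (hall' j hj).1 hij)
  · intro i hi
    rw [h.col _ (hall' i hi).1]
    exact (hall' i hi).2.1
  · intro i hi j hj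
    exact ((hwf' i hi).1 j hj).1
  · intro i hi j hj
    exact h.adj _ (hall' i hi).1 _ ((hall' i hi).2.2.2 j hj)
  · intro i hi j hj
    exact ((hwf' i hi).1 j hj).2
  · intro i hi
    exact (hwf' i hi).2
  · intro i hi
    have h1 := h.typ _ (hall' i hi).1
    rw [(hall' i hi).2.2.1] at h1
    exact h1

/-- All neighbours of a full vertex are listed. -/
theorem Rea.full (h : Rea G g P f) {i : ℕ} (hi : i < P.length)
    (hl : (nbs P i).length = degT (typP P i)) (v : V) :
    G.Adj (f i) v ↔ ∃ j ∈ nbs P i, f j = v := by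
  constructor
  · intro hv
    have h1 : im f (nbs P i) ⊆ G.neighborFinset (f i) := by
      intro w hw
      obtain ⟨j, hj, rfl⟩ := mem_im.1 hw
      rw [SimpleGraph.mem_neighborFinset]
      exact h.adj i hi j hj
    have h2 : (G.neighborFinset (f i)).card ≤ (im f (nbs P i)).card := by
      rw [h.card_im (h.lt i hi) (h.nd i hi), hl, ← (h.typ i hi).deg]
      exact le_of_eq rfl
    have h3 := Finset.eq_of_subset_of_card_le h1 h2
    have h4 : v ∈ G.neighborFinset (f i) := by
      rw [SimpleGraph.mem_neighborFinset]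
      exact hv
    rw [← h3] at h4
    exact mem_im.1 h4
  · rintro ⟨j, hj, rfl⟩
    exact h.adj i hi j hj

/-! ### Stars -/

/-- A leaf `l` of the star with centre `y` and leaves `L`. -/
def leafC (P : Pat) (y : ℕ) (L : List ℕ) (l : ℕ) : Bool :=
  Nat.blt l P.length && eqB (colP P l) true && (nbs P y).contains l &&
  ((Nat.beq (typP P l) 2 && eqN (nbs P l) [y]) ||
    (Nat.beq (typP P l) 1 && Nat.beq (nbs P l).length 3 &&
      (match mP P l, (oP P l).filter (fun j => !(Nat.beq j y)) with
        | [a], [b] => !L.contains a && Nat.beq (typP P b) 0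
        | _, _ => false)))

/-- `y` is a star centre with leaves `l1`, `l2`, `l3`. -/
def starC (P : Pat) (y l1 l2 l3 : ℕ) : Bool :=
  Nat.blt y P.length && eqB (colP P y) false && Nat.beq (typP P y) 0 &&
  Nat.beq (nbs P y).length 3 && nodupB [l1, l2, l3] &&
  leafC P y [l1, l2, l3] l1 && leafC P y [l1, l2, l3] l2 && leafC P y [l1, l2, l3] l3

/-- What `leafC` says. -/
theorem Rea.leafC_spec (h : Rea G g P f) {y : ℕ} (hy : y < P.length) (hcy : colP P y = false)
    {L : List ℕ} (hL : ∀ j ∈ L, j < P.length) {l : ℕ} (hl : leafC P y L l = true) :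
    l < P.length ∧ colP P l = true ∧ l ∈ nbs P y ∧
    ∃ a b : V, (a = f y ∧ b = f y ∧ ∀ v, G.Adj (f l) v ↔ v = f y) ∨
      (a ≠ f y ∧ b ≠ f y ∧ (∀ v, G.Adj (f l) v ↔ v = f y ∨ v = a ∨ v = b) ∧
        g a = true ∧ g b = false ∧ G.degree a = 3 ∧ G.degree b = 3 ∧
        (∀ w, G.Adj b w → g w = true) ∧ ∀ j ∈ L, a ≠ f j) := by
  unfold leafC at hl
  simp only [Bool.and_eq_true, Nat.blt_eq] at hl
  obtain ⟨⟨⟨h1, h2⟩, h3⟩, h4⟩ := hl
  have h2' := eqB_eq _ _ h2
  have h3' : l ∈ nbs P y := by simpa using h3
  refine ⟨h1, h2', h3', ?_⟩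
  have hyl : y ∈ nbs P l := h.sym y hy l h3'
  rw [Bool.or_eq_true] at h4
  rcases h4 with h4 | h4
  · rw [Bool.and_eq_true] at h4
    have h5 := Nat.eq_of_beq_eq_true h4.1
    have h6 := eqN_eq _ _ h4.2
    refine ⟨f y, f y, Or.inl ⟨rfl, rfl, fun v => ?_⟩⟩
    rw [h.full h1 (by rw [h6, h5]; rfl), h6]
    simp only [List.mem_singleton, exists_eq_left]
    exact eq_comm
  · simp only [Bool.and_eq_true] at h4
    obtain ⟨⟨h5, h6⟩, h7⟩ := h4
    have h5' := Nat.eq_of_beq_eq_true h5
    have h6' := Nat.eq_of_beq_eq_true h6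
    split at h7
    · rename_i a b hma hob
      rw [Bool.and_eq_true] at h7
      have h8 : a ∉ L := by simpa using h7.1
      have h9 := Nat.eq_of_beq_eq_true h7.2
      have ha : a ∈ mP P l := by rw [hma]; exact List.mem_singleton.2 rfl
      have hb : b ∈ (oP P l).filter (fun j => !(Nat.beq j y)) := by
        rw [hob]; exact List.mem_singleton.2 rfl
      rw [mem_mP] at ha
      rw [List.mem_filter, mem_oP] at hb
      have hby : b ≠ y := by
        intro h10
        have := hb.2
        rw [h10] at this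
        simp at this
      have hla := h.lt l h1 a ha.1
      have hlb := h.lt l h1 b hb.1.1
      have hga : g (f a) = true := by rw [h.col a hla, ha.2, h2']
      have hgb : g (f b) = false := by
        rw [h.col b hlb]
        have := hb.1.2
        rw [h2'] at this
        simpa using this
      refine ⟨f a, f b, Or.inr ⟨?_, ?_, ?_, hga, hgb, ?_, ?_, ?_, ?_⟩⟩
      · intro h10
        have h11 := h.inj _ _ hla hy h10
        rw [h11, hcy, h2'] at ha
        exact absurd ha.2 (by decide)
      · intro h10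
        exact hby (h.inj _ _ hlb hy h10)
      · intro v
        rw [h.full h1 (by rw [h6', h5']; rfl)]
        constructor
        · rintro ⟨j, hj, rfl⟩
          by_cases hc : colP P j = colP P l
          · have h10 : j ∈ mP P l := mem_mP.2 ⟨hj, hc⟩
            rw [hma, List.mem_singleton] at h10
            exact Or.inr (Or.inl (by rw [h10]))
          · by_cases hjy : j = y
            · exact Or.inl (by rw [hjy])
            · have h10 : j ∈ (oP P l).filter (fun j => !(Nat.beq j y)) := by
                rw [List.mem_filter, mem_oP]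
                refine ⟨⟨hj, hc⟩, ?_⟩
                have : Nat.beq j y = false := by
                  cases hb : Nat.beq j y
                  · rfl
                  · exact absurd (Nat.eq_of_beq_eq_true hb) hjy
                rw [this]
                rfl
              rw [hob, List.mem_singleton] at h10
              exact Or.inr (Or.inr (by rw [h10]))
        · rintro (rfl | rfl | rfl)
          · exact ⟨y, hyl, rfl⟩
          · exact ⟨a, ha.1, rfl⟩
          · exact ⟨b, hb.1.1, rfl⟩
      · have h10 : f l ∈ bad G g (f a) := by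
          rw [mem_bad]
          refine ⟨(h.adj l h1 a ha.1).symm, ?_⟩
          rw [h.col l h1, h.col a hla, ha.2]
        have h11 := Finset.card_pos.2 ⟨_, h10⟩
        rcases h.typ a hla with ⟨_, _, h12⟩ | ⟨_, h12, _⟩ | ⟨_, _, h12⟩
        · omega
        · exact h12
        · omega
      · have h10 := h.typ b hlb
        rw [h9] at h10
        have := h10.deg
        simpa [degT] using this
      · intro w hw
        have h10 := h.typ b hlb
        rw [h9] at h10
        have h11 := h10.bad
        simp only [capM] at h11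
        rw [Finset.card_eq_zero] at h11
        by_contra h12
        have h13 : w ∈ bad G g (f b) := by
          rw [mem_bad]
          refine ⟨hw, ?_⟩
          rw [hgb]
          simpa using h12
        rw [h11] at h13
        exact absurd h13 (Finset.notMem_empty _)
      · intro j hj h10
        have h11 := h.inj _ _ hla (hL j hj) h10
        rw [h11] at h8
        exact h8 hj
    · exact absurd h7 (by decide)

/-- A recognized star gives a frame. -/
theorem Rea.starC_fr (hx : Cx G) (hg : Valid3 G g) (hs : sgn true g = 2)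
    (he : ∃ c, Crit3 G c ∧ En G g + 4 = En G c) (h : Rea G g P f) {y l1 l2 l3 : ℕ}
    (hst : starC P y l1 l2 l3 = true) :
    ∃ a b : Fin 3 → V, Fr G g (f y) ![f l1, f l2, f l3] a b := by
  unfold starC at hst
  simp only [Bool.and_eq_true, Nat.blt_eq] at hst
  obtain ⟨⟨⟨⟨⟨⟨⟨h1, h2⟩, h3⟩, h4⟩, h5⟩, k1⟩, k2⟩, k3⟩ := hst
  have h2' := eqB_eq _ _ h2
  have h3' := Nat.eq_of_beq_eq_true h3
  have h4' := Nat.eq_of_beq_eq_true h4
  rw [nodupB_iff] at h5
  have lt1 : ∀ l, leafC P y [l1, l2, l3] l = true → l < P.length := by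
    intro l hl
    unfold leafC at hl
    simp only [Bool.and_eq_true, Nat.blt_eq] at hl
    exact hl.1.1.1
  have hL : ∀ j ∈ [l1, l2, l3], j < P.length := by
    intro j hj
    simp only [List.mem_cons, List.not_mem_nil, or_false] at hj
    rcases hj with rfl | rfl | rfl
    · exact lt1 _ k1
    · exact lt1 _ k2
    · exact lt1 _ k3
  obtain ⟨p1, c1, n1, a1, b1, r1⟩ := h.leafC_spec h1 h2' hL k1
  obtain ⟨p2, c2, n2, a2, b2, r2⟩ := h.leafC_spec h1 h2' hL k2
  obtain ⟨p3, c3, n3, a3, b3, r3⟩ := h.leafC_spec h1 h2' hL k3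
  have hne : l1 ≠ l2 ∧ l1 ≠ l3 ∧ l2 ≠ l3 := by
    simp only [List.nodup_cons, List.mem_cons, List.not_mem_nil, or_false, not_or,
      List.nodup_nil, and_true, not_false_eq_true] at h5
    exact ⟨h5.1.1, h5.1.2, h5.2⟩
  have hsub : ∀ j ∈ nbs P y, j = l1 ∨ j = l2 ∨ j = l3 := by
    intro j hj
    have e1 : ([l1, l2, l3] : List ℕ).toFinset ⊆ (nbs P y).toFinset := by
      intro i hi
      rw [List.mem_toFinset] at hi ⊢
      simp only [List.mem_cons, List.not_mem_nil, or_false] at hi
      rcases hi with rfl | rfl | rfl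
      · exact n1
      · exact n2
      · exact n3
    have e2 : (nbs P y).toFinset.card ≤ ([l1, l2, l3] : List ℕ).toFinset.card := by
      rw [List.toFinset_card_of_nodup (h.nd y h1), List.toFinset_card_of_nodup h5, h4']
      rfl
    have e3 := Finset.eq_of_subset_of_card_le e1 e2
    have e4 : j ∈ ([l1, l2, l3] : List ℕ).toFinset := by
      rw [e3, List.mem_toFinset]
      exact hj
    rw [List.mem_toFinset] at e4
    simpa using e4
  refine ⟨![a1, a2, a3], ![b1, b2, b3], ?_⟩
  refine Fr.of_nbrs hx.c4 hg hs he ?_ ?_ ?_ ?_ ?_ ?_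
  · rw [h.col y h1, h2']
  · intro v
    rw [h.full h1 (by rw [h4', h3']; rfl)]
    constructor
    · rintro ⟨j, hj, rfl⟩
      rcases hsub j hj with rfl | rfl | rfl
      · exact ⟨0, rfl⟩
      · exact ⟨1, rfl⟩
      · exact ⟨2, rfl⟩
    · rintro ⟨i, hi⟩
      fin_cases i
      · exact ⟨l1, n1, hi.symm⟩
      · exact ⟨l2, n2, hi.symm⟩
      · exact ⟨l3, n3, hi.symm⟩
  · have d1 : f l1 ≠ f l2 := fun e => hne.1 (h.inj _ _ p1 p2 e)
    have d2 : f l1 ≠ f l3 := fun e => hne.2.1 (h.inj _ _ p1 p3 e)
    have d3 : f l2 ≠ f l3 := fun e => hne.2.2 (h.inj _ _ p2 p3 e)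
    intro i j hij
    fin_cases i <;> fin_cases j
    · rfl
    · exact absurd hij d1
    · exact absurd hij d2
    · exact absurd hij d1.symm
    · rfl
    · exact absurd hij d3
    · exact absurd hij d2.symm
    · exact absurd hij d3.symm
    · rfl
  · intro i
    fin_cases i
    · exact (h.col _ p1).trans c1
    · exact (h.col _ p2).trans c2
    · exact (h.col _ p3).trans c3
  · intro i
    fin_cases i
    · rcases r1 with r | ⟨q1, q2, q3, q4, q5, q6, q7, q8, _⟩
      · exact Or.inl r
      · exact Or.inr ⟨q1, q2, q3, q4, q5, q6, q7, q8⟩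
    · rcases r2 with r | ⟨q1, q2, q3, q4, q5, q6, q7, q8, _⟩
      · exact Or.inl r
      · exact Or.inr ⟨q1, q2, q3, q4, q5, q6, q7, q8⟩
    · rcases r3 with r | ⟨q1, q2, q3, q4, q5, q6, q7, q8, _⟩
      · exact Or.inl r
      · exact Or.inr ⟨q1, q2, q3, q4, q5, q6, q7, q8⟩
  · have key : ∀ a b l : V, (a = f y ∧ b = f y ∧ ∀ v, G.Adj l v ↔ v = f y) ∨
        (a ≠ f y ∧ b ≠ f y ∧ (∀ v, G.Adj l v ↔ v = f y ∨ v = a ∨ v = b) ∧
        g a = true ∧ g b = false ∧ G.degree a = 3 ∧ G.degree b = 3 ∧
        (∀ w, G.Adj b w → g w = true) ∧ ∀ j ∈ [l1, l2, l3], a ≠ f j) →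
        ∀ j ∈ [l1, l2, l3], a ≠ f j := by
      intro a b l hr j hj
      rcases hr with ⟨r, _⟩ | ⟨_, _, _, _, _, _, _, _, r⟩
      · intro e
        rw [r] at e
        have e1 := h.inj _ _ h1 (hL j hj) e
        rw [← e1] at hj
        have e2 : colP P y = true := by
          simp only [List.mem_cons, List.not_mem_nil, or_false] at hj
          rcases hj with e3 | e3 | e3
          · rw [e3]; exact c1
          · rw [e3]; exact c2
          · rw [e3]; exact c3
        rw [h2'] at e2
        exact absurd e2 (by decide)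
      · exact r j hj
    have m1 : l1 ∈ [l1, l2, l3] := by simp
    have m2 : l2 ∈ [l1, l2, l3] := by simp
    have m3 : l3 ∈ [l1, l2, l3] := by simp
    intro i j
    fin_cases i <;> fin_cases j
    · exact key _ _ _ r1 _ m1
    · exact key _ _ _ r1 _ m2
    · exact key _ _ _ r1 _ m3
    · exact key _ _ _ r2 _ m1
    · exact key _ _ _ r2 _ m2
    · exact key _ _ _ r2 _ m3
    · exact key _ _ _ r3 _ m1
    · exact key _ _ _ r3 _ m2
    · exact key _ _ _ r3 _ m3

end Pool.Agent.BLN.Chk
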