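import Pool.Agent.BLN.Chk.Root
import Pool.Agent.BLE.Top13

set_option autoImplicit false
set_option linter.unusedSectionVars false

/-!
The leaves of the checker for frames.
-/

namespace Pool.Agent.BLN.Chk

open Finset Pool.Agent.IVT Pool.BLE

variable {V : Type} [Fintype V] [DecidableEq V]
variable {G : SimpleGraph V} [DecidableRel G.Adj] {g : V → Bool} {P : Pat} {f : ℕ → V}

/-! ### Labels -/

theorem leafK_false (hx : Cx G) (hB : NoBal3 G) (hF : FrP G g f) (h : Rea G g P f)
    (h4 : 4 ≤ P.length) {k : ℕ} {A B : List ℕ} (hk : leafK k P A B = true) : False := by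
  obtain ⟨c, hb⟩ := hF.base hx hB h4
  exact hb.leafK_false h hk

/-! ### Recognition of the vertices of a frame -/

/-- The leaf `k` is fully revealed and `w` is not adjacent to it. -/
def offL (P : Pat) (w k : ℕ) : Bool :=
  Nat.beq (nbs P k).length (degT (typP P k)) && !(nbs P k).contains w

/-- `w` is no vertex of the star and not adjacent to a leaf. -/
def ordC (P : Pat) (w : ℕ) : Bool :=
  Nat.ble 4 w && Nat.blt w P.length && offL P w 1 && offL P w 2 && offL P w 3

section

variable {a b : Fin 3 → V} (hab : Fr G g (f 0) (fun i => f (i + 1)) a b) (h : Rea G g P f)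
include hab h

theorem offL_adj (hlen : 4 ≤ P.length) {w k : ℕ} (hk : k < 4) (hw : w < P.length)
    (ho : offL P w k = true) : ¬ G.Adj (f k) (f w) := by
  unfold offL at ho
  rw [Bool.and_eq_true] at ho
  have h1 := Nat.eq_of_beq_eq_true ho.1
  intro h2
  obtain ⟨j, hj, hjw⟩ := (h.full (by omega) h1 _).1 h2
  have h3 := h.inj j w (h.lt k (by omega) j hj) hw hjw
  rw [h3] at hj
  have := ho.2
  simp [hj] at this

theorem ord_spec (hlen : 4 ≤ P.length) {w : ℕ} (ho : ordC P w = true) :
    f w ∈ rest (f 0) (fun i : Fin 3 => f (i + 1)) ∧ (∀ i, f w ≠ a i) ∧ (∀ i, f w ≠ b i) ∧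
      (∀ i : Fin 3, ¬ G.Adj (f w) (f (i + 1))) ∧ w < P.length := by
  unfold ordC at ho
  simp only [Bool.and_eq_true, Nat.blt_eq] at ho
  obtain ⟨⟨⟨⟨h1, h2⟩, h3⟩, h4⟩, h5⟩ := ho
  have h1' := Nat.le_of_ble_eq_true h1
  have hadj : ∀ i : Fin 3, ¬ G.Adj (f (i + 1)) (f w) := by
    intro i
    fin_cases i
    · exact offL_adj hab h hlen (by norm_num) h2 h3
    · exact offL_adj hab h hlen (by norm_num) h2 h4
    · exact offL_adj hab h hlen (by norm_num) h2 h5
  have hx : f w ≠ f 0 := by
    intro e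
    have := h.inj w 0 h2 (by omega) e
    omega
  refine ⟨?_, ?_, ?_, fun i e => hadj i e.symm, h2⟩
  · rw [mem_rest]
    refine ⟨hx, fun i e => ?_⟩
    have := h.inj w (i + 1) h2 (by omega) e
    omega
  · intro i e
    by_cases hi : a i = f 0
    · exact hx (e.trans hi)
    · apply hadj i
      rw [e]
      exact (hab.star.nl i _).2 (Or.inr (Or.inl rfl))
  · intro i e
    by_cases hi : b i = f 0
    · exact hx (e.trans hi)
    · apply hadj i
      rw [e]
      exact (hab.star.nl i _).2 (Or.inr (Or.inr rfl))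

theorem isU_of (hlen : 4 ≤ P.length) {w : ℕ} (ho : ordC P w = true) (ht : typP P w = 0) :
    IsU G g (f 0) (fun i => f (i + 1)) a b (f w) := by
  obtain ⟨h1, h2, h3, h4, h5⟩ := ord_spec hab h hlen ho
  have h6 := h.typ w h5
  rw [ht] at h6
  refine ⟨h1, h6.deg, fun z _ hz e => ?_, h2, h3⟩
  have h7 := h6.bad
  simp only [capM] at h7
  rw [Finset.card_eq_zero] at h7
  have h8 : z ∈ bad G g (f w) := (mem_bad _ _ _ _).2 ⟨hz, e⟩
  rw [h7] at h8
  exact absurd h8 (Finset.notMem_empty _)

theorem isK_of (hlen : 4 ≤ P.length) {w : ℕ} (ho : ordC P w = true) (ht : typP P w ≠ 0) :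
    IsK G g (f 0) (fun i => f (i + 1)) a b (f w) := by
  obtain ⟨h1, h2, h3, h4, h5⟩ := ord_spec hab h hlen ho
  refine ⟨h1, ?_, h2, h3⟩
  rcases h.typ w h5 with ⟨h6, _⟩ | ⟨_, _, h6⟩ | ⟨_, h6, _⟩
  · exact absurd h6 ht
  · right
    have h7 : (bad G g (f w)).Nonempty := by
      rw [← Finset.card_pos]
      omega
    obtain ⟨z, hz⟩ := h7
    rw [mem_bad] at hz
    refine ⟨z, ?_, hz.1, hz.2⟩
    rw [mem_rest]
    constructor
    · intro e
      rw [e] at hz
      obtain ⟨i, hi⟩ := (hab.star.nx _).1 hz.1.symm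
      exact (mem_rest.1 h1).2 i hi
    · intro i e
      rw [e] at hz
      exact h4 i hz.1
  · exact Or.inl h6

/-- A listed neighbour of a leaf of colour `true` is the mate. -/
theorem mate_of (hlen : 4 ≤ P.length) (k : Fin 3) {s : ℕ} (hs : s ∈ nbs P (k + 1))
    (hc : colP P s = true) : f s = a k ∧ a k ≠ f 0 := by
  have h1 := h.adj (k + 1) (by omega) s hs
  have h2 := h.lt (k + 1) (by omega) s hs
  have h3 := h.col s h2
  rw [hc] at h3
  rcases (hab.star.nl k _).1 h1 with e | e | e
  · rw [e, hab.gx] at h3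
    exact absurd h3 (by decide)
  · refine ⟨e, fun e2 => ?_⟩
    rw [e, e2, hab.gx] at h3
    exact absurd h3 (by decide)
  · by_cases hb : b k = f 0
    · rw [e, hb, hab.gx] at h3
      exact absurd h3 (by decide)
    · rw [e, hab.star.cb k hb] at h3
      exact absurd h3 (by decide)

end

/-- A neighbour of a centre is a pendant or has an own neighbour. -/
theorem cen_not_zero {u v : V} (hu : Cen G g u) (huv : G.Adj u v) : ¬ Ty G g v 0 := by
  obtain ⟨l, a, b, hF⟩ := hu
  obtain ⟨i, rfl⟩ := (hF.star.nx v).1 huv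
  intro h1
  by_cases hi : a i = u
  · have h2 := hF.star.deg_pl i hi
    have h3 := h1.deg
    simp only [degT] at h3
    omega
  · have h2 := hF.star.bad_l false (fun _ => true) i hi
    rw [hF.eq_sc] at h2
    have h3 := h1.bad
    simp only [capM] at h3
    omega

/-! ### The rule for two `U` vertices -/

/-- The mate `s` of the leaf `k` has the neighbours `k`, `w`, `w'`, both of them of type zero and
not special, and `v` is a neighbour of `w` of type zero. -/
def leafUU (P : Pat) (k s w w' v : ℕ) : Bool :=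
  (Nat.beq k 1 || Nat.beq k 2 || Nat.beq k 3) && (nbs P k).contains s && eqB (colP P s) true &&
  (nbs P s).contains w && (nbs P s).contains w' && !(Nat.beq w w') &&
  ordC P w && Nat.beq (typP P w) 0 && ordC P w' && Nat.beq (typP P w') 0 &&
  (nbs P w).contains v && Nat.beq (typP P v) 0

/-- The hypothesis about two `U` vertices. -/
def HUU (G : SimpleGraph V) [DecidableRel G.Adj] : Prop :=
  ∀ (g : V → Bool) (x : V) (l a b : Fin 3 → V), Fr G g x l a b → ∀ i w w', a i ≠ x → w ≠ w' →
    G.Adj (a i) w → G.Adj (a i) w' → IsU G g x l a b w → IsU G g x l a b w' → Cen G g w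

theorem leafUU_false (hU : HUU G) (hF : FrP G g f) (h : Rea G g P f) (h4 : 4 ≤ P.length)
    {k s w w' v : ℕ} (hk : leafUU P k s w w' v = true) : False := by
  unfold leafUU at hk
  simp only [Bool.and_eq_true, Bool.or_eq_true] at hk
  obtain ⟨⟨⟨⟨⟨⟨⟨⟨⟨⟨⟨h1, h2⟩, h3⟩, h5⟩, h6⟩, h7⟩, h8⟩, h9⟩, h10⟩, h11⟩, h12⟩, h13⟩ := hk
  obtain ⟨a, b, hab⟩ := hF
  have h2' : s ∈ nbs P k := by simpa using h2
  have h5' : w ∈ nbs P s := by simpa using h5
  have h6' : w' ∈ nbs P s := by simpa using h6
  have h12' : v ∈ nbs P w := by simpa using h12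
  have h3' := eqB_eq _ _ h3
  have h9' := Nat.eq_of_beq_eq_true h9
  have h11' := Nat.eq_of_beq_eq_true h11
  have h13' := Nat.eq_of_beq_eq_true h13
  have hww : w ≠ w' := by
    intro e
    rw [e] at h7
    simp at h7
  obtain ⟨i, hi⟩ : ∃ i : Fin 3, k = i + 1 := by
    rcases h1 with (e | e) | e
    · exact ⟨0, Nat.eq_of_beq_eq_true e⟩
    · exact ⟨1, Nat.eq_of_beq_eq_true e⟩
    · exact ⟨2, Nat.eq_of_beq_eq_true e⟩
  subst hi
  obtain ⟨hs, hax⟩ := mate_of hab h h4 i h2' h3'
  have hsl : s < P.length := h.lt _ (by omega) s h2'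
  have hwl : w < P.length := h.lt s hsl w h5'
  have hwl' : w' < P.length := h.lt s hsl w' h6'
  have hc := hU g (f 0) _ a b hab i (f w) (f w') hax (fun e => hww (h.inj _ _ hwl hwl' e))
    (by rw [← hs]; exact h.adj s hsl w h5') (by rw [← hs]; exact h.adj s hsl w' h6')
    (isU_of hab h h4 h8 h9') (isU_of hab h h4 h10 h11')
  have hv := h.typ v (h.lt w hwl v h12')
  rw [h13'] at hv
  exact cen_not_zero hc (h.adj w hwl v h12') hv

/-! ### The rule for triangles -/

/-- The triangle `A = [t0, t1, t2]` with outer neighbours `O` and their pendants `D`. -/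
def leafH (P : Pat) (t o p : ℕ) (T : List ℕ) : Bool :=
  Nat.blt t P.length && Nat.blt o P.length && Nat.beq (nbs P t).length (degT (typP P t)) &&
  (nbs P t).all (fun j => Nat.beq j o || T.contains j) && (nbs P o).contains p &&
  Nat.beq (typP P p) 2 && !T.contains p

theorem leafH_spec (h : Rea G g P f) {t o p : ℕ} {T : List ℕ} (hk : leafH P t o p T = true) :
    (∀ v, G.Adj (f t) v → v = f o ∨ ∃ j ∈ T, v = f j) ∧ G.Adj (f o) (f p) ∧ G.degree (f p) = 1 ∧
      t < P.length ∧ p < P.length ∧ p ∉ T := by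
  unfold leafH at hk
  simp only [Bool.and_eq_true, Nat.blt_eq, List.all_eq_true, Bool.or_eq_true] at hk
  obtain ⟨⟨⟨⟨⟨⟨h1, h2⟩, h3⟩, h4⟩, h5⟩, h6⟩, h7⟩ := hk
  have h3' := Nat.eq_of_beq_eq_true h3
  have h5' : p ∈ nbs P o := by simpa using h5
  have h6' := Nat.eq_of_beq_eq_true h6
  have hp := h.lt o h2 p h5'
  refine ⟨?_, h.adj o h2 p h5', ?_, h1, hp, by simpa using h7⟩
  · intro v hv
    obtain ⟨j, hj, rfl⟩ := (h.full h1 h3' v).1 hv
    rcases h4 j hj with e | e
    · exact Or.inl (by rw [Nat.eq_of_beq_eq_true e])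
    · exact Or.inr ⟨j, by simpa using e, rfl⟩
  · have := h.typ p hp
    rw [h6'] at this
    exact this.one

theorem leafH_false (hC : Cls13 G) (h : Rea G g P f) {t0 t1 t2 o0 o1 o2 p0 p1 p2 : ℕ}
    (hn : nodupB [t0, t1, t2] = true) (h0 : leafH P t0 o0 p0 [t0, t1, t2] = true)
    (h1 : leafH P t1 o1 p1 [t0, t1, t2] = true) (h2 : leafH P t2 o2 p2 [t0, t1, t2] = true) :
    False := by
  obtain ⟨a0, b0, c0, d0, e0, f0⟩ := leafH_spec h h0
  obtain ⟨a1, b1, c1, d1, e1, f1⟩ := leafH_spec h h1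
  obtain ⟨a2, b2, c2, d2, e2, f2⟩ := leafH_spec h h2
  rw [nodupB_iff] at hn
  have hne : t0 ≠ t1 ∧ t0 ≠ t2 ∧ t1 ≠ t2 := by
    simp only [List.nodup_cons, List.mem_cons, List.not_mem_nil, or_false, not_or,
      List.nodup_nil, and_true, not_false_eq_true] at hn
    exact ⟨hn.1.1, hn.1.2, hn.2⟩
  have hT : ∀ v, (∃ j ∈ [t0, t1, t2], v = f j) → ∃ j : Fin 3, v = ![f t0, f t1, f t2] j := by
    rintro v ⟨j, hj, rfl⟩
    simp only [List.mem_cons, List.not_mem_nil, or_false] at hj
    rcases hj with rfl | rfl | rfl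
    · exact ⟨0, rfl⟩
    · exact ⟨1, rfl⟩
    · exact ⟨2, rfl⟩
  have hp : ∀ p, p < P.length → p ∉ [t0, t1, t2] → ∀ j : Fin 3, f p ≠ ![f t0, f t1, f t2] j := by
    intro p hp hp2 j e
    simp only [List.mem_cons, List.not_mem_nil, or_false, not_or] at hp2
    fin_cases j
    · exact hp2.1 (h.inj _ _ hp d0 e)
    · exact hp2.2.1 (h.inj _ _ hp d1 e)
    · exact hp2.2.2 (h.inj _ _ hp d2 e)
  refine hC.no_triangle (t := ![f t0, f t1, f t2]) (o := ![f o0, f o1, f o2])
    (p := ![f p0, f p1, f p2]) ?_ ?_ ?_ ?_ ?_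
  · have g1 : f t0 ≠ f t1 := fun e => hne.1 (h.inj _ _ d0 d1 e)
    have g2 : f t0 ≠ f t2 := fun e => hne.2.1 (h.inj _ _ d0 d2 e)
    have g3 : f t1 ≠ f t2 := fun e => hne.2.2 (h.inj _ _ d1 d2 e)
    intro i j hij
    fin_cases i <;> fin_cases j
    · rfl
    · exact absurd hij g1
    · exact absurd hij g2
    · exact absurd hij g1.symm
    · rfl
    · exact absurd hij g3
    · exact absurd hij g2.symm
    · exact absurd hij g3.symm
    · rfl
  · intro i v hv
    fin_cases i
    · exact (a0 v hv).imp_right (hT v)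
    · exact (a1 v hv).imp_right (hT v)
    · exact (a2 v hv).imp_right (hT v)
  · intro i
    fin_cases i
    · exact b0
    · exact b1
    · exact b2
  · intro i
    fin_cases i
    · exact hp _ e0 f0
    · exact hp _ e1 f1
    · exact hp _ e2 f2
  · intro i
    fin_cases i
    · exact c0
    · exact c1
    · exact c2

/-! ### All leaves -/

/-- The leaves of the checker for frames, with a list of lemmas. -/
def leafF (L : List Pat) (k : ℕ) (P : Pat) (A B : List ℕ) : Bool :=
  if Nat.blt k 10 then leafK k P A B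
  else if Nat.beq k 10 then
    (match A with
    | [t0, t1, t2, o0, o1, o2, p0, p1, p2] =>
      nodupB [t0, t1, t2] && leafH P t0 o0 p0 [t0, t1, t2] && leafH P t1 o1 p1 [t0, t1, t2] &&
        leafH P t2 o2 p2 [t0, t1, t2]
    | _ => false)
  else if Nat.beq k 11 then
    (match A with
    | [k, s, w, w', v] => leafUU P k s w w' v
    | _ => false)
  else if Nat.beq k 12 then
    (match A with
    | [j] => (match L.drop j with
        | Q :: _ => embF Q P B
        | [] => false)
    | _ => false)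
  else false

/-- The pattern `P` does not occur at a frame. -/
def NoP (G : SimpleGraph V) [DecidableRel G.Adj] (P : Pat) : Prop :=
  ∀ (g : V → Bool) (f : ℕ → V), Rea G g P f → FrP G g f → 4 ≤ P.length → False

theorem leafF_false (hC : Cls13 G) (hB : NoBal3 G) (hU : HUU G) {L : List Pat}
    (hL : ∀ Q ∈ L, NoP G Q) (k : ℕ) (P : Pat) (A B : List ℕ) (hk : leafF L k P A B = true) :
    NoP G P := by
  intro g f h hF h4
  unfold leafF at hk
  split_ifs at hk with e1 e2 e3 e4
  · exact leafK_false (cx_of hC) hB hF h h4 hk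
  · split at hk
    · simp only [Bool.and_eq_true] at hk
      exact leafH_false hC h hk.1.1.1 hk.1.1.2 hk.1.2 hk.2
    · exact absurd hk (by decide)
  · split at hk
    · exact leafUU_false hU hF h h4 hk
    · exact absurd hk (by decide)
  · split at hk
    · rename_i j
      split at hk
      · rename_i Q L' hQ
        have hQL : Q ∈ L := by
          have : Q ∈ L.drop j := by rw [hQ]; exact List.mem_cons_self
          exact List.mem_of_mem_drop this
        obtain ⟨h1, h2, h3⟩ := h.embF (cx_of hC) hF hk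
        exact hL Q hQL g _ h1 h2 h3
      · exact absurd hk (by decide)
    · exact absurd hk (by decide)

/-- **The checker.** -/
theorem noP_of_run (hC : Cls13 G) (hB : NoBal3 G) (hU : HUU G) (L : List Pat)
    (hL : ∀ Q ∈ L, NoP G Q) (P : Pat) (is : List InF) (hr : runF (leafF L) is [P] = true) :
    NoP G P := fun g f hf hF h4 =>
  runF_sound (cx_of hC) hB (leafF L) (leafF_false hC hB hU hL) is [P] hr P List.mem_cons_self g f hf hF h4

end Pool.Agent.BLN.Chk
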