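import Pool.Agent.BLN.Chk.Pat

set_option autoImplicit false
set_option linter.unusedSectionVars false

/-!
States of a pattern: a bit mask `S` tells which named vertices are flipped. Lower and upper bounds
for the number of own neighbours of a named vertex.
-/

namespace Pool.Agent.BLN.Chk

open Finset Pool.Agent.IVT

variable {V : Type} [Fintype V] [DecidableEq V]

/-- The class of graphs. -/
structure Cx (G : SimpleGraph V) [DecidableRel G.Adj] : Prop where
  deg : Deg13 G
  c4 : C4Free G
  pd : ∀ v p q, G.Adj v p → G.Adj v q → G.degree p = 1 → G.degree q = 1 → p = q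

/-- The edge `i j` creates no cycle of length four. -/
def noC4 (P : Pat) (i j : ℕ) : Bool :=
  (nbs P i).all (fun a => a == j || (nbs P j).all (fun b => b == i || b == a || !(nbs P a).contains b))

/-- The edge `i j` creates no vertex with two pendant neighbours. -/
def okL (P : Pat) (i j : ℕ) : Bool :=
  (typP P j != 2 || (nbs P i).all (fun a => typP P a != 2)) &&
  (typP P i != 2 || (nbs P j).all (fun a => typP P a != 2))

/-- The edge `i j` is possible. -/
def okE (P : Pat) (i j : ℕ) : Bool :=
  !(i == j) && !(nbs P i).contains j && noC4 P i j && okL P i j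

variable {G : SimpleGraph V} [DecidableRel G.Adj] {g : V → Bool} {P : Pat} {f : ℕ → V}

theorem Ty.two {v : V} {t : ℕ} (h : Ty G g v t) (hd : G.degree v = 1) : t = 2 := by
  rcases h with ⟨_, h2, _⟩ | ⟨_, h2, _⟩ | ⟨h1, _, _⟩
  · omega
  · omega
  · exact h1

theorem Ty.one {v : V} (h : Ty G g v 2) : G.degree v = 1 := by
  rcases h with ⟨h1, _, _⟩ | ⟨h1, _, _⟩ | ⟨_, h1, _⟩
  · omega
  · omega
  · exact h1

namespace Rea

theorem okE (hx : Cx G) (h : Rea G g P f) {i j : ℕ} (hi : i < P.length) (hj : j < P.length)
    (hij : G.Adj (f i) (f j)) (hn : j ∉ nbs P i) : okE P i j = true := by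
  have hne : i ≠ j := fun h1 => by subst h1; exact G.irrefl hij
  have h1 : noC4 P i j = true := by
    unfold noC4
    rw [List.all_eq_true]
    intro a ha
    by_cases haj : a = j
    · simp [haj]
    · have h2 : ((nbs P j).all (fun b => b == i || b == a || !(nbs P a).contains b)) = true := by
        rw [List.all_eq_true]
        intro b hb
        by_cases hbi : b = i
        · simp [hbi]
        by_cases hba : b = a
        · simp [hba]
        have hla := h.lt i hi a ha
        have hlb := h.lt j hj b hb
        have h3 : b ∉ nbs P a := by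
          intro h3
          rcases hx.c4 (f i) (f a) (f b) (f j) (h.adj i hi a ha) (h.adj a hla b h3)
            (h.adj j hj b hb).symm hij.symm with h4 | h4
          · exact hbi (h.inj _ _ hi hlb h4).symm
          · exact haj (h.inj _ _ hla hj h4)
        simp [h3]
      rw [h2]
      simp
  have key : ∀ i j, i < P.length → j < P.length → G.Adj (f i) (f j) → j ∉ nbs P i →
      typP P j = 2 → ∀ a ∈ nbs P i, typP P a ≠ 2 := by
    intro i j hi hj hij hn h2 a ha h3
    have hla := h.lt i hi a ha
    have h4 := h.typ j hj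
    have h5 := h.typ a hla
    rw [h2] at h4
    rw [h3] at h5
    have h6 := hx.pd (f i) (f j) (f a) hij (h.adj i hi a ha) h4.one h5.one
    have h7 := h.inj _ _ hj hla h6
    rw [h7] at hn
    exact hn ha
  have hn' : i ∉ nbs P j := fun h2 => hn (h.sym j hj i h2)
  have h2 : okL P i j = true := by
    unfold okL
    rw [Bool.and_eq_true]
    constructor
    · by_cases h3 : typP P j = 2
      · rw [Bool.or_eq_true]
        right
        rw [List.all_eq_true]
        intro a ha
        simpa using key i j hi hj hij hn h3 a ha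
      · simp [h3]
    · by_cases h3 : typP P i = 2
      · rw [Bool.or_eq_true]
        right
        rw [List.all_eq_true]
        intro a ha
        simpa using key j i hj hi hij.symm hn' h3 a ha
      · simp [h3]
  unfold Chk.okE
  simp [hne, hn, h1, h2]

end Rea

/-! ### States -/

/-- The flipped vertices. -/
def fl (P : Pat) (f : ℕ → V) (S : ℕ) : Finset V :=
  im f ((List.range P.length).filter (fun i => S.testBit i))

/-- The colouring of a state. -/
def stC (g : V → Bool) (P : Pat) (f : ℕ → V) (S : ℕ) : V → Bool := flips (fl P f S) g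

/-- The number of flipped named vertices that may be unknown neighbours of the other colour. -/
def rO (P : Pat) (S i : ℕ) : ℕ :=
  ((List.range P.length).filter
    (fun j => S.testBit j && (colP P j != colP P i) && (slO P j != 0) && okE P i j)).length

/-- The number of flipped named vertices that may be unknown neighbours of the same colour. -/
def rM (P : Pat) (S i : ℕ) : ℕ :=
  ((List.range P.length).filter
    (fun j => S.testBit j && (colP P j == colP P i) && (slM P j != 0) && okE P i j)).length

/-- Lower bound for the number of own neighbours. -/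
def LB (P : Pat) (S i : ℕ) : ℕ :=
  if S.testBit i then
    (oP P i).countP (fun j => !S.testBit j) + (mP P i).countP (fun j => S.testBit j)
      + (slO P i - rO P S i)
  else
    (oP P i).countP (fun j => S.testBit j) + (mP P i).countP (fun j => !S.testBit j)
      + (slM P i - rM P S i)

/-- Upper bound for the number of own neighbours. -/
def UB (P : Pat) (S i : ℕ) : ℕ :=
  if S.testBit i then
    (oP P i).countP (fun j => !S.testBit j) + (mP P i).countP (fun j => S.testBit j)
      + slO P i + min (slM P i) (rM P S i)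
  else
    (oP P i).countP (fun j => S.testBit j) + (mP P i).countP (fun j => !S.testBit j)
      + min (slO P i) (rO P S i) + slM P i

/-- The sum of the colours over the flipped vertices. -/
def sumS (P : Pat) (S : ℕ) : ℤ :=
  (((List.range P.length).filter (fun i => S.testBit i)).map
    (fun i => if colP P i then (1 : ℤ) else -1)).sum

/-- Toggle the named vertex `i`. -/
def tg (S i : ℕ) : ℕ := S ^^^ (1 <<< i)

/-- The state is surely valid. -/
def validC (P : Pat) (S : ℕ) : Bool :=
  (List.range P.length).all
    (fun i => (!S.testBit i || slO P i == 0) && Nat.blt (2 * UB P S i) (degT (typP P i)))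

theorem mem_fl {S : ℕ} {w : V} : w ∈ fl P f S ↔ ∃ i, i < P.length ∧ S.testBit i = true ∧ f i = w := by
  unfold fl
  rw [mem_im]
  constructor
  · rintro ⟨j, hj, hw⟩
    rw [List.mem_filter, List.mem_range] at hj
    exact ⟨j, hj.1, hj.2, hw⟩
  · rintro ⟨j, h1, h2, hw⟩
    exact ⟨j, List.mem_filter.2 ⟨List.mem_range.2 h1, h2⟩, hw⟩

namespace Rea

variable (h : Rea G g P f)
include h

theorem name_fl {S i : ℕ} (hi : i < P.length) : f i ∈ fl P f S ↔ S.testBit i = true := by
  rw [mem_fl]
  constructor
  · rintro ⟨j, h1, h2, h3⟩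
    rw [← h.inj j i h1 hi h3]
    exact h2
  · intro h1
    exact ⟨i, hi, h1, rfl⟩

theorem stC_name {S i : ℕ} (hi : i < P.length) :
    stC g P f S (f i) = if S.testBit i then !colP P i else colP P i := by
  unfold stC flips
  by_cases h1 : S.testBit i = true
  · rw [if_pos ((h.name_fl hi).2 h1), if_pos h1, h.col i hi]
  · rw [if_neg (fun h2 => h1 ((h.name_fl hi).1 h2)), if_neg h1, h.col i hi]

end Rea

theorem stC_zero : stC g P f 0 = g := by
  funext w
  unfold stC flips
  rw [if_neg]
  intro h1
  obtain ⟨i, _, h2, _⟩ := mem_fl.1 h1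
  simp at h2

/-- Own neighbours in a state. -/
theorem mem_bad_stC {S : ℕ} {v w : V} : w ∈ bad G (stC g P f S) v ↔
    (w ∈ oN G g v ∧ (w ∈ fl P f S ↔ v ∉ fl P f S)) ∨ (w ∈ bad G g v ∧ (w ∈ fl P f S ↔ v ∈ fl P f S)) := by
  rw [mem_bad, mem_oN, mem_bad]
  unfold stC flips
  by_cases h1 : w ∈ fl P f S <;> by_cases h2 : v ∈ fl P f S <;>
    by_cases h3 : g w = g v <;> simp [h1, h2, h3]
  all_goals
    intro _
    revert h3
    cases g w <;> cases g v <;> simp

/-- Counting members of a list with a property through the image. -/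
theorem card_im_filter (h : Rea G g P f) {L : List ℕ} (hL : ∀ j ∈ L, j < P.length) (hn : L.Nodup)
    (p : ℕ → Bool) (q : V → Prop) [DecidablePred q] (hpq : ∀ j ∈ L, (p j = true ↔ q (f j))) :
    ((im f L).filter q).card = L.countP p := by
  have h1 : (im f L).filter q = im f (L.filter p) := by
    ext w
    rw [Finset.mem_filter, mem_im, mem_im]
    constructor
    · rintro ⟨⟨j, hj, rfl⟩, h2⟩
      exact ⟨j, List.mem_filter.2 ⟨hj, (hpq j hj).2 h2⟩, rfl⟩
    · rintro ⟨j, hj, rfl⟩
      rw [List.mem_filter] at hj
      exact ⟨⟨j, hj.1, rfl⟩, (hpq j hj.1).1 hj.2⟩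
  rw [h1, h.card_im (fun j hj => hL j (List.mem_filter.1 hj).1) (hn.filter _),
    List.countP_eq_length_filter]

namespace Rea

/-- The unknown neighbours of the other colour that are flipped. -/
theorem card_uO_fl (hx : Cx G) (h : Rea G g P f) {i : ℕ} (hi : i < P.length) (S : ℕ) :
    ((oN G g (f i) \ im f (oP P i)).filter (fun w => w ∈ fl P f S)).card ≤ rO P S i := by
  unfold rO
  rw [← h.card_im (L := (List.range P.length).filter
    (fun j => S.testBit j && (colP P j != colP P i) && (slO P j != 0) && Chk.okE P i j))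
    (fun j hj => List.mem_range.1 (List.mem_filter.1 hj).1) (List.nodup_range.filter _)]
  apply Finset.card_le_card
  intro w hw
  rw [Finset.mem_filter] at hw
  obtain ⟨j, hj, h1, rfl⟩ := mem_fl.1 hw.2
  have h2 := h.uO_named hi hj hw.1
  have h3 : G.Adj (f i) (f j) := (mem_oN.1 (Finset.mem_sdiff.1 hw.1).1).1
  have h4 := h.okE hx hi hj h3 h2.1
  refine mem_im.2 ⟨j, List.mem_filter.2 ⟨List.mem_range.2 hj, ?_⟩, rfl⟩
  simp [h1, h2.2.1, h2.2.2, h4]

theorem card_uM_fl (hx : Cx G) (h : Rea G g P f) {i : ℕ} (hi : i < P.length) (S : ℕ) :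
    ((bad G g (f i) \ im f (mP P i)).filter (fun w => w ∈ fl P f S)).card ≤ rM P S i := by
  unfold rM
  rw [← h.card_im (L := (List.range P.length).filter
    (fun j => S.testBit j && (colP P j == colP P i) && (slM P j != 0) && Chk.okE P i j))
    (fun j hj => List.mem_range.1 (List.mem_filter.1 hj).1) (List.nodup_range.filter _)]
  apply Finset.card_le_card
  intro w hw
  rw [Finset.mem_filter] at hw
  obtain ⟨j, hj, h1, rfl⟩ := mem_fl.1 hw.2
  have h2 := h.uM_named hi hj hw.1
  have h3 : G.Adj (f i) (f j) := ((mem_bad _ _ _ _).1 (Finset.mem_sdiff.1 hw.1).1).1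
  have h4 := h.okE hx hi hj h3 h2.1
  refine mem_im.2 ⟨j, List.mem_filter.2 ⟨List.mem_range.2 hj, ?_⟩, rfl⟩
  simp [h1, h2.2.1, h2.2.2, h4]

/-- The own neighbours of a named vertex in a state, in four parts. -/
theorem card_bad_stC (h : Rea G g P f) {i : ℕ} (hi : i < P.length) (S : ℕ) :
    (bad G (stC g P f S) (f i)).card =
      ((im f (oP P i)).filter (fun w => w ∈ fl P f S ↔ f i ∉ fl P f S)).card +
      ((im f (mP P i)).filter (fun w => w ∈ fl P f S ↔ f i ∈ fl P f S)).card +
      ((oN G g (f i) \ im f (oP P i)).filter (fun w => w ∈ fl P f S ↔ f i ∉ fl P f S)).card +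
      ((bad G g (f i) \ im f (mP P i)).filter (fun w => w ∈ fl P f S ↔ f i ∈ fl P f S)).card := by
  have h1 : bad G (stC g P f S) (f i) =
      (oN G g (f i)).filter (fun w => w ∈ fl P f S ↔ f i ∉ fl P f S) ∪
      (bad G g (f i)).filter (fun w => w ∈ fl P f S ↔ f i ∈ fl P f S) := by
    ext w
    rw [mem_bad_stC, Finset.mem_union, Finset.mem_filter, Finset.mem_filter]
  have h2 : Disjoint (oN G g (f i)) (bad G g (f i)) := by
    rw [Finset.disjoint_left]
    intro w hw hw'
    exact (mem_oN.1 hw).2 ((mem_bad _ _ _ _).1 hw').2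
  rw [h1, Finset.card_union_of_disjoint (Finset.disjoint_filter_filter h2)]
  have h3 : ∀ (A B : Finset V) (q : V → Prop) [DecidablePred q], B ⊆ A →
      (A.filter q).card = (B.filter q).card + ((A \ B).filter q).card := by
    intro A B q _ hAB
    rw [← Finset.card_union_of_disjoint (Finset.disjoint_filter_filter Finset.disjoint_sdiff),
      ← Finset.filter_union, Finset.union_sdiff_of_subset hAB]
  rw [h3 (oN G g (f i)) (im f (oP P i)) _ (h.im_oP hi), h3 (bad G g (f i)) (im f (mP P i)) _ (h.im_mP hi)]
  omega

/-- Splitting by membership. -/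
theorem card_split (A B : Finset V) :
    (A.filter (fun w => w ∈ B)).card + (A.filter (fun w => w ∉ B)).card = A.card :=
  Finset.card_filter_add_card_filter_not _

theorem bounds (hx : Cx G) (h : Rea G g P f) {i : ℕ} (hi : i < P.length) (S : ℕ) :
    LB P S i ≤ (bad G (stC g P f S) (f i)).card ∧ (bad G (stC g P f S) (f i)).card ≤ UB P S i := by
  rw [h.card_bad_stC hi S]
  have ho := h.card_uO_fl hx hi S
  have hm := h.card_uM_fl hx hi S
  have ho2 := h.card_uO hi
  have hm2 := h.card_uM hi
  have ho3 := card_split (oN G g (f i) \ im f (oP P i)) (fl P f S)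
  have hm3 := card_split (bad G g (f i) \ im f (mP P i)) (fl P f S)
  have hT : ∀ j ∈ oP P i, (S.testBit j = true ↔ f j ∈ fl P f S) := fun j hj =>
    (h.name_fl (h.oP_lt hi j hj)).symm
  have hT' : ∀ j ∈ mP P i, (S.testBit j = true ↔ f j ∈ fl P f S) := fun j hj =>
    (h.name_fl (h.mP_lt hi j hj)).symm
  unfold LB UB
  by_cases hb : S.testBit i = true
  · have hb' := (h.name_fl hi).2 hb
    rw [if_pos hb, if_pos hb]
    simp only [hb', not_true_eq_false, iff_false, iff_true]
    rw [card_im_filter h (h.oP_lt hi) (h.oP_nd hi) (fun j => !S.testBit j) _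
        (fun j hj => by rw [← hT j hj]; simp),
      card_im_filter h (h.mP_lt hi) (h.mP_nd hi) (fun j => S.testBit j) _ hT']
    omega
  · have hb' : f i ∉ fl P f S := fun h1 => hb ((h.name_fl hi).1 h1)
    rw [if_neg hb, if_neg hb]
    simp only [hb', not_false_eq_true, iff_true, iff_false]
    rw [card_im_filter h (h.oP_lt hi) (h.oP_nd hi) (fun j => S.testBit j) _ hT,
      card_im_filter h (h.mP_lt hi) (h.mP_nd hi) (fun j => !S.testBit j) _
        (fun j hj => by rw [← hT' j hj]; simp)]
    omega

theorem LB_le (hx : Cx G) (h : Rea G g P f) {i : ℕ} (hi : i < P.length) (S : ℕ) :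
    LB P S i ≤ (bad G (stC g P f S) (f i)).card := (h.bounds hx hi S).1

theorem le_UB (hx : Cx G) (h : Rea G g P f) {i : ℕ} (hi : i < P.length) (S : ℕ) :
    (bad G (stC g P f S) (f i)).card ≤ UB P S i := (h.bounds hx hi S).2


theorem testBit_tg (S i j : ℕ) : (tg S i).testBit j = (S.testBit j ^^ decide (i = j)) := by
  unfold tg
  rw [Nat.testBit_xor, Nat.one_shiftLeft, Nat.testBit_two_pow]

theorem stC_tg (h : Rea G g P f) {i : ℕ} (hi : i < P.length) (S : ℕ) :
    stC g P f (tg S i) = flip (stC g P f S) (f i) := by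
  funext w
  have key : ∀ w, w ∈ fl P f (tg S i) ↔ (if w = f i then w ∉ fl P f S else w ∈ fl P f S) := by
    intro w
    by_cases hw : w = f i
    · subst hw
      rw [if_pos rfl, h.name_fl hi, h.name_fl hi, testBit_tg]
      simp
    · rw [if_neg hw, mem_fl, mem_fl]
      constructor
      · rintro ⟨j, h1, h2, h3⟩
        have h4 : i ≠ j := fun h4 => hw (by rw [← h3, h4])
        rw [testBit_tg] at h2
        exact ⟨j, h1, by simpa [h4] using h2, h3⟩
      · rintro ⟨j, h1, h2, h3⟩
        have h4 : i ≠ j := fun h4 => hw (by rw [← h3, h4])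
        refine ⟨j, h1, ?_, h3⟩
        rw [testBit_tg]
        simpa [h4] using h2
  unfold stC flips IVT.flip
  beta_reduce
  by_cases hw : w = f i
  · by_cases h1 : w ∈ fl P f S
    · rw [if_neg (fun h2 => by rw [key, if_pos hw] at h2; exact h2 h1), if_pos hw, if_pos h1,
        Bool.not_not]
    · rw [if_pos ((key w).2 (by rw [if_pos hw]; exact h1)), if_pos hw, if_neg h1]
  · by_cases h1 : w ∈ fl P f S
    · rw [if_pos ((key w).2 (by rw [if_neg hw]; exact h1)), if_neg hw, if_pos h1]
    · rw [if_neg (fun h2 => by rw [key, if_neg hw] at h2; exact h1 h2), if_neg hw, if_neg h1]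

theorem sgn_flips (T : Finset V) : sgn true (flips T g) = sgn true g - 2 * ∑ v ∈ T, sg (g v) := by
  have h1 : ∀ v, (if flips T g v = true then (1 : ℤ) else -1)
      = (if g v = true then (1 : ℤ) else -1) - 2 * (if v ∈ T then sg (g v) else 0) := by
    intro v
    unfold flips sg
    by_cases hv : v ∈ T
    · cases g v <;> simp [hv]
    · simp [hv]
  unfold sgn
  rw [Finset.sum_congr rfl (fun v _ => h1 v), Finset.sum_sub_distrib, ← Finset.mul_sum,
    Finset.sum_ite_mem, Finset.univ_inter]

theorem sgn_stC (h : Rea G g P f) (S : ℕ) :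
    sgn true (stC g P f S) = sgn true g - 2 * sumS P S := by
  unfold stC
  rw [sgn_flips]
  congr 2
  unfold fl im sumS
  rw [Finset.sum_image, List.sum_toFinset _ (List.nodup_range.filter _)]
  · congr 1
    apply List.map_congr_left
    intro j hj
    have h1 := List.mem_range.1 (List.mem_filter.1 hj).1
    rw [h.col j h1]
    rfl
  · intro a ha b hb hab
    simp only [List.coe_toFinset, List.mem_filter, List.mem_range, Set.mem_ofPred_eq] at ha hb
    exact h.inj a b ha.1 hb.1 hab

theorem valid_of (hx : Cx G) (hg : Valid3 G g) (h : Rea G g P f) {S : ℕ}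
    (hS : validC P S = true) : Valid3 G (stC g P f S) := by
  unfold validC at hS
  rw [List.all_eq_true] at hS
  intro v
  by_cases hv : ∃ i, i < P.length ∧ f i = v
  · obtain ⟨i, hi, rfl⟩ := hv
    have h1 := hS i (List.mem_range.2 hi)
    rw [Bool.and_eq_true, Nat.blt_eq] at h1
    have h2 := h.le_UB hx hi S
    have h3 := (h.typ i hi).deg
    omega
  · have h1 : bad G (stC g P f S) v ⊆ bad G g v := by
      intro w hw
      have hvf : v ∉ fl P f S := by
        intro h2
        obtain ⟨i, hi, _, h3⟩ := mem_fl.1 h2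
        exact hv ⟨i, hi, h3⟩
      rcases mem_bad_stC.1 hw with ⟨h2, h3⟩ | ⟨h2, _⟩
      · exfalso
        obtain ⟨j, hj, h4, rfl⟩ := mem_fl.1 (h3.2 hvf)
        have h5 := hS j (List.mem_range.2 hj)
        rw [Bool.and_eq_true] at h5
        have h6 : slO P j = 0 := by
          have := h5.1
          simpa [h4] using this
        have h7 := h.card_uO hj
        rw [h6, Finset.card_eq_zero, Finset.sdiff_eq_empty_iff_subset] at h7
        have h8 : v ∈ oN G g (f j) := by
          rw [mem_oN] at h2 ⊢
          exact ⟨h2.1.symm, fun h9 => h2.2 h9.symm⟩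
        obtain ⟨k, hk, hk2⟩ := mem_im.1 (h7 h8)
        exact hv ⟨k, h.oP_lt hj k hk, hk2⟩
      · exact h2
    have h2 := Finset.card_le_card h1
    have h3 := hg v
    omega

end Rea

end Pool.Agent.BLN.Chk
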