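import Pool.Agent.BLN.IV3c

set_option autoImplicit false
set_option linter.unusedSectionVars false

/-!
Patterns of named vertices in a graph with degrees `1` and `3`, with a valid colouring `g`.
A named vertex has a colour, a type (`0`: degree three and no own neighbour, `1`: degree three and
one own neighbour, `2`: degree one and no own neighbour) and a list of known neighbours.
-/

namespace Pool.Agent.BLN.Chk

open Finset Pool.Agent.IVT

/-- A named vertex: colour, type, known neighbours. -/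
structure Vx where
  c : Bool
  t : ℕ
  nb : List ℕ
deriving DecidableEq

/-- A pattern: a list of named vertices. -/
abbrev Pat := List Vx

def vx : Pat → ℕ → Vx
  | [], _ => ⟨false, 0, []⟩
  | x :: _, 0 => x
  | _ :: P, i + 1 => vx P i

def colP (P : Pat) (i : ℕ) : Bool := (vx P i).c
def typP (P : Pat) (i : ℕ) : ℕ := (vx P i).t
def nbs (P : Pat) (i : ℕ) : List ℕ := (vx P i).nb

/-- Known neighbours of the other colour. -/
def oP (P : Pat) (i : ℕ) : List ℕ := (nbs P i).filter (fun j => colP P j != colP P i)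

/-- Known neighbours of the same colour. -/
def mP (P : Pat) (i : ℕ) : List ℕ := (nbs P i).filter (fun j => colP P j == colP P i)

def capO : ℕ → ℕ
  | 0 => 3
  | 1 => 2
  | _ => 1

def capM : ℕ → ℕ
  | 1 => 1
  | _ => 0

def degT : ℕ → ℕ
  | 0 => 3
  | 1 => 3
  | _ => 1

/-- Open slots for neighbours of the other colour. -/
def slO (P : Pat) (i : ℕ) : ℕ := capO (typP P i) - (oP P i).length

/-- Open slots for neighbours of the same colour. -/
def slM (P : Pat) (i : ℕ) : ℕ := capM (typP P i) - (mP P i).length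

variable {V : Type} [Fintype V] [DecidableEq V]

/-- The vertex `v` has type `t` in the colouring `g`. -/
def Ty (G : SimpleGraph V) [DecidableRel G.Adj] (g : V → Bool) (v : V) (t : ℕ) : Prop :=
  (t = 0 ∧ G.degree v = 3 ∧ (bad G g v).card = 0) ∨
  (t = 1 ∧ G.degree v = 3 ∧ (bad G g v).card = 1) ∨
  (t = 2 ∧ G.degree v = 1 ∧ (bad G g v).card = 0)

/-- The map `f` realizes the pattern `P` in the colouring `g`. -/
structure Rea (G : SimpleGraph V) [DecidableRel G.Adj] (g : V → Bool) (P : Pat) (f : ℕ → V) :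
    Prop where
  inj : ∀ i j, i < P.length → j < P.length → f i = f j → i = j
  col : ∀ i, i < P.length → g (f i) = colP P i
  lt : ∀ i, i < P.length → ∀ j ∈ nbs P i, j < P.length
  adj : ∀ i, i < P.length → ∀ j ∈ nbs P i, G.Adj (f i) (f j)
  sym : ∀ i, i < P.length → ∀ j ∈ nbs P i, i ∈ nbs P j
  nd : ∀ i, i < P.length → (nbs P i).Nodup
  typ : ∀ i, i < P.length → Ty G g (f i) (typP P i)

/-- The neighbours of the other colour. -/
def oN (G : SimpleGraph V) [DecidableRel G.Adj] (g : V → Bool) (v : V) : Finset V :=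
  (G.neighborFinset v).filter (fun w => g w ≠ g v)

variable {G : SimpleGraph V} [DecidableRel G.Adj] {g : V → Bool} {P : Pat} {f : ℕ → V}

theorem mem_oN {v w : V} : w ∈ oN G g v ↔ G.Adj v w ∧ g w ≠ g v := by
  simp [oN]

theorem oN_bad (v : V) : (bad G g v).card + (oN G g v).card = G.degree v := by
  unfold bad oN
  rw [Finset.card_filter_add_card_filter_not]
  rfl

theorem Ty.oN {v : V} {t : ℕ} (h : Ty G g v t) : (oN G g v).card = capO t := by
  have h1 := oN_bad (G := G) (g := g) v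
  rcases h with ⟨rfl, h2, h3⟩ | ⟨rfl, h2, h3⟩ | ⟨rfl, h2, h3⟩ <;> simp only [capO] <;> omega

theorem Ty.bad {v : V} {t : ℕ} (h : Ty G g v t) : (bad G g v).card = capM t := by
  rcases h with ⟨rfl, h2, h3⟩ | ⟨rfl, h2, h3⟩ | ⟨rfl, h2, h3⟩ <;> simp only [capM] <;> omega

theorem Ty.deg {v : V} {t : ℕ} (h : Ty G g v t) : G.degree v = degT t := by
  rcases h with ⟨rfl, h2, h3⟩ | ⟨rfl, h2, h3⟩ | ⟨rfl, h2, h3⟩ <;> simp only [degT] <;> omega

theorem exists_ty (hG : Deg13 G) (hg : Valid3 G g) (v : V) : ∃ t, t < 3 ∧ Ty G g v t := by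
  have h1 := hg v
  rcases hG v with h2 | h2
  · exact ⟨2, by omega, Or.inr (Or.inr ⟨rfl, h2, by omega⟩)⟩
  · rcases Nat.eq_zero_or_pos (bad G g v).card with h3 | h3
    · exact ⟨0, by omega, Or.inl ⟨rfl, h2, h3⟩⟩
    · exact ⟨1, by omega, Or.inr (Or.inl ⟨rfl, h2, by omega⟩)⟩

theorem mem_oP {i j : ℕ} : j ∈ oP P i ↔ j ∈ nbs P i ∧ colP P j ≠ colP P i := by
  simp [oP]

theorem mem_mP {i j : ℕ} : j ∈ mP P i ↔ j ∈ nbs P i ∧ colP P j = colP P i := by
  simp [mP]

/-- The named vertices of a list. -/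
def im (f : ℕ → V) (L : List ℕ) : Finset V := L.toFinset.image f

theorem mem_im {L : List ℕ} {w : V} : w ∈ im f L ↔ ∃ j ∈ L, f j = w := by
  simp [im]

namespace Rea

variable (h : Rea G g P f)
include h

theorem card_im {L : List ℕ} (hL : ∀ j ∈ L, j < P.length) (hn : L.Nodup) :
    (im f L).card = L.length := by
  unfold im
  rw [Finset.card_image_of_injOn, List.toFinset_card_of_nodup hn]
  intro a ha b hb hab
  simp only [List.coe_toFinset, Set.mem_ofPred_eq] at ha hb
  exact h.inj a b (hL a ha) (hL b hb) hab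

theorem oP_lt {i : ℕ} (hi : i < P.length) : ∀ j ∈ oP P i, j < P.length := fun j hj =>
  h.lt i hi j (mem_oP.1 hj).1

theorem mP_lt {i : ℕ} (hi : i < P.length) : ∀ j ∈ mP P i, j < P.length := fun j hj =>
  h.lt i hi j (mem_mP.1 hj).1

theorem oP_nd {i : ℕ} (hi : i < P.length) : (oP P i).Nodup := (h.nd i hi).filter _

theorem mP_nd {i : ℕ} (hi : i < P.length) : (mP P i).Nodup := (h.nd i hi).filter _

theorem im_oP {i : ℕ} (hi : i < P.length) : im f (oP P i) ⊆ oN G g (f i) := by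
  intro w hw
  obtain ⟨j, hj, rfl⟩ := mem_im.1 hw
  have h1 := mem_oP.1 hj
  rw [mem_oN, h.col i hi, h.col j (h.lt i hi j h1.1)]
  exact ⟨h.adj i hi j h1.1, h1.2⟩

theorem im_mP {i : ℕ} (hi : i < P.length) : im f (mP P i) ⊆ bad G g (f i) := by
  intro w hw
  obtain ⟨j, hj, rfl⟩ := mem_im.1 hw
  have h1 := mem_mP.1 hj
  rw [mem_bad, h.col i hi, h.col j (h.lt i hi j h1.1)]
  exact ⟨h.adj i hi j h1.1, h1.2⟩

/-- The unknown neighbours of the other colour. -/
theorem card_uO {i : ℕ} (hi : i < P.length) :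
    (oN G g (f i) \ im f (oP P i)).card = slO P i := by
  rw [Finset.card_sdiff_of_subset (h.im_oP hi), h.card_im (h.oP_lt hi) (h.oP_nd hi),
    (h.typ i hi).oN]
  rfl

theorem card_uM {i : ℕ} (hi : i < P.length) :
    (bad G g (f i) \ im f (mP P i)).card = slM P i := by
  rw [Finset.card_sdiff_of_subset (h.im_mP hi), h.card_im (h.mP_lt hi) (h.mP_nd hi),
    (h.typ i hi).bad]
  rfl

/-- If a named vertex is an unknown neighbour of another one, then it has an open slot. -/
theorem uO_named {i j : ℕ} (hi : i < P.length) (hj : j < P.length)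
    (hm : f j ∈ oN G g (f i) \ im f (oP P i)) :
    j ∉ nbs P i ∧ colP P j ≠ colP P i ∧ slO P j ≠ 0 := by
  rw [Finset.mem_sdiff, mem_oN, h.col i hi, h.col j hj] at hm
  obtain ⟨⟨h1, h2⟩, h3⟩ := hm
  have h4 : j ∉ nbs P i := fun h5 => h3 (mem_im.2 ⟨j, mem_oP.2 ⟨h5, h2⟩, rfl⟩)
  refine ⟨h4, h2, ?_⟩
  rw [← h.card_uO hj]
  intro h5
  rw [Finset.card_eq_zero] at h5
  have h6 : f i ∈ oN G g (f j) \ im f (oP P j) := by
    rw [Finset.mem_sdiff, mem_oN, h.col i hi, h.col j hj]
    refine ⟨⟨h1.symm, fun h7 => h2 h7.symm⟩, fun h7 => ?_⟩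
    obtain ⟨k, hk, hk2⟩ := mem_im.1 h7
    have h8 : k < P.length := h.oP_lt hj k hk
    have h9 : k = i := h.inj k i h8 hi hk2
    rw [h9] at hk
    exact h4 (h.sym j hj i (mem_oP.1 hk).1)
  rw [h5] at h6
  exact absurd h6 (Finset.notMem_empty _)

theorem uM_named {i j : ℕ} (hi : i < P.length) (hj : j < P.length)
    (hm : f j ∈ bad G g (f i) \ im f (mP P i)) :
    j ∉ nbs P i ∧ colP P j = colP P i ∧ slM P j ≠ 0 := by
  rw [Finset.mem_sdiff, mem_bad, h.col i hi, h.col j hj] at hm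
  obtain ⟨⟨h1, h2⟩, h3⟩ := hm
  have h4 : j ∉ nbs P i := fun h5 => h3 (mem_im.2 ⟨j, mem_mP.2 ⟨h5, h2⟩, rfl⟩)
  refine ⟨h4, h2, ?_⟩
  rw [← h.card_uM hj]
  intro h5
  rw [Finset.card_eq_zero] at h5
  have h6 : f i ∈ bad G g (f j) \ im f (mP P j) := by
    rw [Finset.mem_sdiff, mem_bad, h.col i hi, h.col j hj]
    refine ⟨⟨h1.symm, h2.symm⟩, fun h7 => ?_⟩
    obtain ⟨k, hk, hk2⟩ := mem_im.1 h7
    have h8 : k < P.length := h.mP_lt hj k hk
    have h9 : k = i := h.inj k i h8 hi hk2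
    rw [h9] at hk
    exact h4 (h.sym j hj i (mem_mP.1 hk).1)
  rw [h5] at h6
  exact absurd h6 (Finset.notMem_empty _)

end Rea

end Pool.Agent.BLN.Chk
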