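import Pool.Agent.BLN.Chk.RunF
import Pool.Agent.BLN.LT

set_option autoImplicit false
set_option linter.unusedSectionVars false

/-!
Frames of realizations, the root patterns, and the kinds of label certificates.
-/

namespace Pool.Agent.BLN.Chk

open Finset Pool.Agent.IVT Pool.Agent.BLN

variable {V : Type} [Fintype V] [DecidableEq V]
variable {G : SimpleGraph V} [DecidableRel G.Adj] {g : V → Bool} {P : Pat} {f : ℕ → V}
variable {x : V} {l a b : Fin 3 → V}

theorem cx_of (h : Pool.BLE.Cls13 G) : Cx G :=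
  ⟨h.deg, h.c4, fun _ _ _ h1 h2 h3 h4 => h.pend h1 h2 h3 h4⟩

/-- The state `15` is the other star colouring. -/
theorem fr_state (h : Fr G g x l a b) (hP : 4 ≤ P.length) (h0 : f 0 = x)
    (hl : ∀ i : Fin 3, f ((i : ℕ) + 1) = l i) :
    stC g P f 15 = sc g x l true (fun _ => false) := by
  have hm : ∀ v, v ∈ fl P f 15 ↔ v = x ∨ ∃ i, v = l i := by
    intro v
    rw [mem_fl]
    constructor
    · rintro ⟨i, -, hi, rfl⟩
      have hi4 : i < 4 := by
        by_contra hcon
        have h4 : (15 : ℕ) < 2 ^ i := by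
          calc (15 : ℕ) < 2 ^ 4 := by norm_num
            _ ≤ 2 ^ i := Nat.pow_le_pow_right (by norm_num) (by omega)
        rw [Nat.testBit_lt_two_pow h4] at hi
        exact absurd hi (by decide)
      interval_cases i
      · exact Or.inl h0
      · exact Or.inr ⟨0, hl 0⟩
      · exact Or.inr ⟨1, hl 1⟩
      · exact Or.inr ⟨2, hl 2⟩
    · rintro (rfl | ⟨i, rfl⟩)
      · exact ⟨0, by omega, by decide, h0⟩
      · fin_cases i
        · exact ⟨1, by omega, by decide, hl 0⟩
        · exact ⟨2, by omega, by decide, hl 1⟩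
        · exact ⟨3, by omega, by decide, hl 2⟩
  funext v
  unfold stC flips
  rcases h.star.cases v with rfl | ⟨j, rfl⟩ | hv
  · rw [if_pos ((hm _).2 (Or.inl rfl)), sc_x, h.gx]
    rfl
  · rw [if_pos ((hm _).2 (Or.inr ⟨j, rfl⟩)), h.star.sc_l, h.gl]
    rfl
  · rw [if_neg, sc_rest hv]
    intro h4
    rw [mem_rest] at hv
    rcases (hm v).1 h4 with h5 | ⟨i, h5⟩
    · exact hv.1 h5
    · exact hv.2 i h5

theorem fr_sum_neg (h : Fr G g x l a b) : sgn false (sc g x l true (fun _ => false)) = 2 := by
  have h1 := h.star.sgn_sc true (fun _ => false)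
  have h2 : sgn false (sc g x l true (fun _ => false)) =
    - sgn true (sc g x l true (fun _ => false)) := sgn_not true _
  rw [h2, h1]
  simp [sg]

/-- The base of the label certificates. -/
theorem base_of (hx : Cx G) (hB : NoBal3 G) (h : Fr G g x l a b) (hP : 4 ≤ P.length)
    (h0 : f 0 = x) (hl : ∀ i : Fin 3, f ((i : ℕ) + 1) = l i) : ∃ c0, Base G g P f c0 := by
  obtain ⟨c0, hc, he⟩ := h.en
  have hst := fr_state h hP h0 hl
  have hv : Valid3 G (sc g x l true (fun _ => false)) := by
    have := h.star.valid_sc true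
    simpa using this
  refine ⟨c0, hx, hB, h.valid, h.sum, hc, he, ?_, ?_⟩
  · rw [hst]
    exact Lab3.of_valid G hv (by rw [fr_sum_neg h])
  · rw [hst]
    have h4 := h.star.en_sc true (fun _ => false)
    rw [h.eq_sc] at h4
    have h5 : nm true (fun _ => false) = 0 := by decide
    rw [h5] at h4
    push_cast at h4
    omega

theorem FrP.base (hx : Cx G) (hB : NoBal3 G) (h : FrP G g f) (hP : 4 ≤ P.length) :
    ∃ c0, Base G g P f c0 := by
  obtain ⟨a, b, hf⟩ := h
  exact base_of hx hB hf hP rfl (fun _ => rfl)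

/-- The kinds of label certificates. `0`: paths from `g` and from the other star colouring to the
same state. `1`: a path from `g` to a state with the other label by the potential. `2`: the same
from the other star colouring. `3`: flips to a state with label `true` by the potential, and a path
from there to a state with label `false` by the potential. `4`: the same, the path ends at the
other star colouring. `5`: the same with label `false`, the path ends at `g`. -/
def leafK (k : ℕ) (P : Pat) (A B : List ℕ) : Bool :=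
  match k with
  | 0 => leafL P A B
  | 1 => potP P A
  | 2 => potM P A
  | 3 =>
    match srcP P (Src.pot true A) with
    | some (_, S, e) =>
      match pathP P S e B with
      | some (T, _) => potC P T false
      | none => false
    | none => false
  | 4 => leafLL P (Src.pot true A) B Src.minus []
  | 5 => leafLL P (Src.pot false A) B Src.plus []
  | _ => false

theorem Base.leafK_false {c0 : V → Bool} (hb : Base G g P f c0) (h : Rea G g P f) {k : ℕ}
    {A B : List ℕ} (hl : leafK k P A B = true) : False := by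
  unfold leafK at hl
  split at hl
  · exact hb.leafL_false h hl
  · exact hb.potP_false h hl
  · exact hb.potM_false h hl
  · split at hl
    · rename_i s S e hs
      split at hl
      · rename_i T e' hp
        have h0 : s = true := by
          rw [srcP] at hs
          split at hs
          · split_ifs at hs
            simp only [Option.some.injEq, Prod.mk.injEq] at hs
            exact hs.1.symm
          · simp at hs
        subst h0
        have h1 := h.path_sound hb.cx hb.nb hb.val hb.sum hb.crit hb.en B (hb.src h hs) hp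
        exact h.potC_lab hb.cx hb.val hb.sum hl h1.lab
      · simp at hl
    · simp at hl
  · exact hb.leafLL_false h hl
  · exact hb.leafLL_false h hl
  · simp at hl

/-! ### The root patterns -/

/-- The star without pendant leaves. -/
def root3 : Pat :=
  [⟨false, 0, [1, 2, 3]⟩, ⟨true, 1, [0, 4, 7]⟩, ⟨true, 1, [0, 5, 8]⟩, ⟨true, 1, [0, 6, 9]⟩,
   ⟨true, 1, [1]⟩, ⟨true, 1, [2]⟩, ⟨true, 1, [3]⟩, ⟨false, 0, [1]⟩, ⟨false, 0, [2]⟩,
   ⟨false, 0, [3]⟩]

/-- The star with a pendant leaf. -/
def root2 : Pat :=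
  [⟨false, 0, [1, 2, 3]⟩, ⟨true, 1, [0, 4, 6]⟩, ⟨true, 1, [0, 5, 7]⟩, ⟨true, 2, [0]⟩,
   ⟨true, 1, [1]⟩, ⟨true, 1, [2]⟩, ⟨false, 0, [1]⟩, ⟨false, 0, [2]⟩]

def nm3 (x : V) (l a b : Fin 3 → V) : ℕ → V
  | 0 => x
  | 1 => l 0
  | 2 => l 1
  | 3 => l 2
  | 4 => a 0
  | 5 => a 1
  | 6 => a 2
  | 7 => b 0
  | 8 => b 1
  | _ => b 2

def nm2 (x : V) (l a b : Fin 3 → V) : ℕ → V
  | 0 => x
  | 1 => l 0
  | 2 => l 1
  | 3 => l 2
  | 4 => a 0
  | 5 => a 1
  | 6 => b 0
  | _ => b 1

theorem ty_x (h : Fr G g x l a b) : Ty G g x 0 := by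
  refine Or.inl ⟨rfl, h.star.deg_x, ?_⟩
  have h1 := h.star.bad_x false (fun _ => true)
  rw [h.eq_sc] at h1
  rw [h1]
  decide

theorem ty_l (h : Fr G g x l a b) {i : Fin 3} (hi : a i ≠ x) : Ty G g (l i) 1 := by
  refine Or.inr (Or.inl ⟨rfl, h.star.deg_l i hi, ?_⟩)
  have h1 := h.star.bad_l false (fun _ => true) i hi
  rw [h.eq_sc] at h1
  rw [h1]
  simp

theorem ty_pl (h : Fr G g x l a b) {i : Fin 3} (hi : a i = x) : Ty G g (l i) 2 := by
  refine Or.inr (Or.inr ⟨rfl, h.star.deg_pl i hi, ?_⟩)
  have h1 := h.star.bad_pl false (fun _ => true) i hi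
  rw [h.eq_sc] at h1
  rw [h1]
  simp

theorem ty_a (h : Fr G g x l a b) {i : Fin 3} (hi : a i ≠ x) : Ty G g (a i) 1 := by
  refine Or.inr (Or.inl ⟨rfl, h.star.deg_a i hi, ?_⟩)
  have h1 : bad G g (a i) = {l i} := by
    ext w
    rw [mem_bad, Finset.mem_singleton, h.star.ca i hi]
    constructor
    · rintro ⟨h1, h2⟩
      exact h.a_true i hi h1 h2
    · rintro rfl
      exact ⟨(h.nb_l i hi).ay.symm, h.gl i⟩
  rw [h1, Finset.card_singleton]

theorem ty_b (h : Fr G g x l a b) {i : Fin 3} (hi : b i ≠ x) : Ty G g (b i) 0 := by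
  refine Or.inl ⟨rfl, h.star.deg_b i hi, ?_⟩
  rw [Finset.card_eq_zero, Finset.eq_empty_iff_forall_notMem]
  intro w hw
  rw [mem_bad, h.star.cb i hi] at hw
  rw [h.b_all i hi hw.1] at hw
  exact absurd hw.2 (by decide)

theorem root3_of (h : Fr G g x l a b) (ha : ∀ i, a i ≠ x) :
    Rea G g root3 (nm3 x l a b) ∧ FrP G g (nm3 x l a b) := by
  have hb : ∀ i, b i ≠ x := fun i h1 => ha i ((h.star.a_eq_iff i).2 h1)
  have e1 : ∀ i, l i ≠ x := h.star.l_ne_x
  have e2 : ∀ i j, a i ≠ b j := fun i j => h.star.a_ne_b' i (ha i) j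
  have e3 : ∀ i j, l i ≠ a j := fun i j h1 => (mem_rest.1 (h.star.a_rest j (ha j))).2 i h1.symm
  have e4 : ∀ i j, l i ≠ b j := fun i j h1 => (mem_rest.1 (h.star.b_rest j (hb j))).2 i h1.symm
  have l01 : l 0 ≠ l 1 := fun h1 => by simpa using h.star.l_inj h1
  have l02 : l 0 ≠ l 2 := fun h1 => by simpa using h.star.l_inj h1
  have l12 : l 1 ≠ l 2 := fun h1 => by simpa using h.star.l_inj h1
  have a01 : a 0 ≠ a 1 := fun h1 => by simpa using h.star.a_inj _ _ h1 (ha _)
  have a02 : a 0 ≠ a 2 := fun h1 => by simpa using h.star.a_inj _ _ h1 (ha _)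
  have a12 : a 1 ≠ a 2 := fun h1 => by simpa using h.star.a_inj _ _ h1 (ha _)
  have b01 : b 0 ≠ b 1 := fun h1 => by simpa using h.star.b_inj _ _ h1 (hb _)
  have b02 : b 0 ≠ b 2 := fun h1 => by simpa using h.star.b_inj _ _ h1 (hb _)
  have b12 : b 1 ≠ b 2 := fun h1 => by simpa using h.star.b_inj _ _ h1 (hb _)
  have lx : ∀ i, G.Adj (l i) x := fun i => (h.nb_l i (ha i)).ax
  have la : ∀ i, G.Adj (l i) (a i) := fun i => (h.nb_l i (ha i)).ay
  have lb : ∀ i, G.Adj (l i) (b i) := fun i => (h.nb_l i (ha i)).az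
  have hlt : root3.length = 10 := rfl
  refine ⟨⟨?_, ?_, ?_, ?_, ?_, ?_, ?_⟩, ?_⟩
  · intro i j hi hj hij
    rw [hlt] at hi hj
    interval_cases i <;> interval_cases j <;> first
      | rfl
      | (exfalso
         simp only [nm3] at hij
         first
          | exact e1 _ hij
          | exact e1 _ hij.symm
          | exact ha _ hij
          | exact ha _ hij.symm
          | exact hb _ hij
          | exact hb _ hij.symm
          | exact e2 _ _ hij
          | exact e2 _ _ hij.symm
          | exact e3 _ _ hij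
          | exact e3 _ _ hij.symm
          | exact e4 _ _ hij
          | exact e4 _ _ hij.symm
          | exact l01 hij
          | exact l01 hij.symm
          | exact l02 hij
          | exact l02 hij.symm
          | exact l12 hij
          | exact l12 hij.symm
          | exact a01 hij
          | exact a01 hij.symm
          | exact a02 hij
          | exact a02 hij.symm
          | exact a12 hij
          | exact a12 hij.symm
          | exact b01 hij
          | exact b01 hij.symm
          | exact b02 hij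
          | exact b02 hij.symm
          | exact b12 hij
          | exact b12 hij.symm)
  · intro i hi
    rw [hlt] at hi
    interval_cases i
    · exact h.gx
    · exact h.gl 0
    · exact h.gl 1
    · exact h.gl 2
    · exact h.star.ca 0 (ha 0)
    · exact h.star.ca 1 (ha 1)
    · exact h.star.ca 2 (ha 2)
    · exact h.star.cb 0 (hb 0)
    · exact h.star.cb 1 (hb 1)
    · exact h.star.cb 2 (hb 2)
  · decide
  · intro i hi j hj
    rw [hlt] at hi
    have key : ∀ i j, G.Adj (nm3 x l a b i) (nm3 x l a b j) →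
        G.Adj (nm3 x l a b i) (nm3 x l a b j) := fun _ _ h => h
    interval_cases i <;> simp only [nbs, vx, root3, List.mem_cons, List.not_mem_nil, or_false] at hj
    · rcases hj with rfl | rfl | rfl
      · exact (lx 0).symm
      · exact (lx 1).symm
      · exact (lx 2).symm
    · rcases hj with rfl | rfl | rfl
      · exact lx 0
      · exact la 0
      · exact lb 0
    · rcases hj with rfl | rfl | rfl
      · exact lx 1
      · exact la 1
      · exact lb 1
    · rcases hj with rfl | rfl | rfl
      · exact lx 2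
      · exact la 2
      · exact lb 2
    · subst hj; exact (la 0).symm
    · subst hj; exact (la 1).symm
    · subst hj; exact (la 2).symm
    · subst hj; exact (lb 0).symm
    · subst hj; exact (lb 1).symm
    · subst hj; exact (lb 2).symm
  · decide
  · decide
  · intro i hi
    rw [hlt] at hi
    interval_cases i
    · exact ty_x h
    · exact ty_l h (ha 0)
    · exact ty_l h (ha 1)
    · exact ty_l h (ha 2)
    · exact ty_a h (ha 0)
    · exact ty_a h (ha 1)
    · exact ty_a h (ha 2)
    · exact ty_b h (hb 0)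
    · exact ty_b h (hb 1)
    · exact ty_b h (hb 2)
  · refine ⟨a, b, ?_⟩
    have h1 : (fun i : Fin 3 => nm3 x l a b (i + 1)) = l := by
      funext i
      fin_cases i <;> rfl
    rw [h1]
    exact h

theorem root2_of (h : Fr G g x l a b) (h0 : a 0 ≠ x) (h1 : a 1 ≠ x) (h2 : a 2 = x) :
    Rea G g root2 (nm2 x l a b) ∧ FrP G g (nm2 x l a b) := by
  have k0 : b 0 ≠ x := fun h1 => h0 ((h.star.a_eq_iff 0).2 h1)
  have k1 : b 1 ≠ x := fun h2 => h1 ((h.star.a_eq_iff 1).2 h2)
  have e1 : ∀ i, l i ≠ x := h.star.l_ne_x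
  have e20 : ∀ j, a 0 ≠ b j := fun j => h.star.a_ne_b' 0 h0 j
  have e21 : ∀ j, a 1 ≠ b j := fun j => h.star.a_ne_b' 1 h1 j
  have e30 : ∀ i, l i ≠ a 0 := fun i h1 => (mem_rest.1 (h.star.a_rest 0 h0)).2 i h1.symm
  have e31 : ∀ i, l i ≠ a 1 := fun i h2 => (mem_rest.1 (h.star.a_rest 1 h1)).2 i h2.symm
  have e40 : ∀ i, l i ≠ b 0 := fun i h1 => (mem_rest.1 (h.star.b_rest 0 k0)).2 i h1.symm
  have e41 : ∀ i, l i ≠ b 1 := fun i h2 => (mem_rest.1 (h.star.b_rest 1 k1)).2 i h2.symm
  have l01 : l 0 ≠ l 1 := fun h1 => by simpa using h.star.l_inj h1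
  have l02 : l 0 ≠ l 2 := fun h1 => by simpa using h.star.l_inj h1
  have l12 : l 1 ≠ l 2 := fun h1 => by simpa using h.star.l_inj h1
  have a01 : a 0 ≠ a 1 := fun h1 => by simpa using h.star.a_inj _ _ h1 h0
  have b01 : b 0 ≠ b 1 := fun h1 => by simpa using h.star.b_inj _ _ h1 k0
  have lx : ∀ i, G.Adj (l i) x := fun i => ((h.star.nx (l i)).2 ⟨i, rfl⟩).symm
  have hlt : root2.length = 8 := rfl
  refine ⟨⟨?_, ?_, ?_, ?_, ?_, ?_, ?_⟩, ?_⟩
  · intro i j hi hj hij
    rw [hlt] at hi hj
    interval_cases i <;> interval_cases j <;> first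
      | rfl
      | (exfalso
         simp only [nm2] at hij
         first
          | exact e1 _ hij
          | exact e1 _ hij.symm
          | exact h0 hij
          | exact h0 hij.symm
          | exact h1 hij
          | exact h1 hij.symm
          | exact k0 hij
          | exact k0 hij.symm
          | exact k1 hij
          | exact k1 hij.symm
          | exact e20 _ hij
          | exact e20 _ hij.symm
          | exact e21 _ hij
          | exact e21 _ hij.symm
          | exact e30 _ hij
          | exact e30 _ hij.symm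
          | exact e31 _ hij
          | exact e31 _ hij.symm
          | exact e40 _ hij
          | exact e40 _ hij.symm
          | exact e41 _ hij
          | exact e41 _ hij.symm
          | exact l01 hij
          | exact l01 hij.symm
          | exact l02 hij
          | exact l02 hij.symm
          | exact l12 hij
          | exact l12 hij.symm
          | exact a01 hij
          | exact a01 hij.symm
          | exact b01 hij
          | exact b01 hij.symm)
  · intro i hi
    rw [hlt] at hi
    interval_cases i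
    · exact h.gx
    · exact h.gl 0
    · exact h.gl 1
    · exact h.gl 2
    · exact h.star.ca 0 h0
    · exact h.star.ca 1 h1
    · exact h.star.cb 0 k0
    · exact h.star.cb 1 k1
  · decide
  · intro i hi j hj
    rw [hlt] at hi
    interval_cases i <;> simp only [nbs, vx, root2, List.mem_cons, List.not_mem_nil, or_false] at hj
    · rcases hj with rfl | rfl | rfl
      · exact (lx 0).symm
      · exact (lx 1).symm
      · exact (lx 2).symm
    · rcases hj with rfl | rfl | rfl
      · exact lx 0
      · exact (h.nb_l 0 h0).ay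
      · exact (h.nb_l 0 h0).az
    · rcases hj with rfl | rfl | rfl
      · exact lx 1
      · exact (h.nb_l 1 h1).ay
      · exact (h.nb_l 1 h1).az
    · subst hj; exact lx 2
    · subst hj; exact (h.nb_l 0 h0).ay.symm
    · subst hj; exact (h.nb_l 1 h1).ay.symm
    · subst hj; exact (h.nb_l 0 h0).az.symm
    · subst hj; exact (h.nb_l 1 h1).az.symm
  · decide
  · decide
  · intro i hi
    rw [hlt] at hi
    interval_cases i
    · exact ty_x h
    · exact ty_l h h0
    · exact ty_l h h1
    · exact ty_pl h h2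
    · exact ty_a h h0
    · exact ty_a h h1
    · exact ty_b h k0
    · exact ty_b h k1
  · refine ⟨a, b, ?_⟩
    have h3 : (fun i : Fin 3 => nm2 x l a b (i + 1)) = l := by
      funext i
      fin_cases i <;> rfl
    rw [h3]
    exact h

/-- At most one leaf is a pendant. -/
theorem one_pend (hx : Cx G) (h : Fr G g x l a b) {i j : Fin 3} (hi : a i = x) (hj : a j = x) :
    i = j := by
  have h1 : G.Adj x (l i) := (h.star.nx (l i)).2 ⟨i, rfl⟩
  have h2 : G.Adj x (l j) := (h.star.nx (l j)).2 ⟨j, rfl⟩
  exact h.star.l_inj (hx.pd x (l i) (l j) h1 h2 (h.star.deg_pl i hi) (h.star.deg_pl j hj))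

/-! ### Extensions of a realization -/

/-- The realization `f` of `P` in `g`, with the frame. -/
structure RF (G : SimpleGraph V) [DecidableRel G.Adj] (g : V → Bool) (P : Pat) (f : ℕ → V) :
    Prop where
  rea : Rea G g P f
  fr : FrP G g f
  len : 4 ≤ P.length

theorem RF.of_fr3 (h : Fr G g x l a b) (ha : ∀ i, a i ≠ x) : RF G g root3 (nm3 x l a b) :=
  ⟨(root3_of h ha).1, (root3_of h ha).2, by decide⟩

theorem RF.of_fr2 (h : Fr G g x l a b) (h0 : a 0 ≠ x) (h1 : a 1 ≠ x) (h2 : a 2 = x) :
    RF G g root2 (nm2 x l a b) :=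
  ⟨(root2_of h h0 h1 h2).1, (root2_of h h0 h1 h2).2, by decide⟩

theorem FrP.congr {f' : ℕ → V} (h : FrP G g f) (he : ∀ i, i < 4 → f' i = f i) : FrP G g f' := by
  obtain ⟨a, b, hf⟩ := h
  refine ⟨a, b, ?_⟩
  rw [he 0 (by omega)]
  have h6 : (fun i : Fin 3 => f' (i + 1)) = fun i : Fin 3 => f (i + 1) := by
    funext i
    exact he _ (by omega)
  rw [h6]
  exact hf

/-- Add a new vertex. -/
theorem RF.addV (h : RF G g P f) {v : ℕ} (hv : v < P.length) {w : V} {c : Bool} {t : ℕ}
    (ha : G.Adj (f v) w) (hn : ∀ i, i < P.length → f i ≠ w) (hc : g w = c) (ht : Ty G g w t) :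
    RF G g (Chk.addV P v c t) (Function.update f P.length w) := by
  refine ⟨h.rea.addV hv ha hn hc ht, h.fr.congr (fun i hi => ?_), ?_⟩
  · have := h.len
    exact Function.update_of_ne (by omega) _ _
  · have := h.len
    rw [length_addV]
    omega

/-- Add an edge. -/
theorem RF.addE (h : RF G g P f) {v w : ℕ} (hv : v < P.length) (hw : w < P.length)
    (ha : G.Adj (f v) (f w)) (hn : w ∉ nbs P v) : RF G g (Chk.addE P v w) f := by
  refine ⟨h.rea.addE hv hw ha hn, h.fr, ?_⟩
  have := h.len
  rw [length_addE]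
  exact this

theorem ty_U {w : V} (h : IsU G g x l a b w) (hF : Fr G g x l a b) (hw : g w = false) :
    Ty G g w 0 := by
  refine Or.inl ⟨rfl, h.deg, ?_⟩
  rw [Finset.card_eq_zero, Finset.eq_empty_iff_forall_notMem]
  intro z hz
  rw [mem_bad] at hz
  rcases hF.star.cases z with rfl | ⟨j, rfl⟩ | hr
  · obtain ⟨j, hj⟩ := (hF.star.nx _).1 hz.1.symm
    exact (mem_rest.1 h.rest).2 j hj
  · rw [hF.gl, hw] at hz
    exact absurd hz.2 (by decide)
  · exact h.own z hr hz.1 hz.2

/-- An ordinary vertex of the rest is not next to a leaf. -/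
theorem not_adj_leaf {w : V} (hF : Fr G g x l a b) (hr : w ∈ rest x l) (hna : ∀ i, w ≠ a i)
    (hnb : ∀ i, w ≠ b i) (i : Fin 3) : ¬ G.Adj (l i) w := by
  intro h
  rcases (hF.star.nl i w).1 h with h1 | h1 | h1
  · exact (mem_rest.1 hr).1 h1
  · exact hna i h1
  · exact hnb i h1

/-- The type of an ordinary `K` vertex or pendant of the rest. -/
theorem ty_K (hG : Deg13 G) {w : V} (h : IsK G g x l a b w) (hF : Fr G g x l a b) :
    Ty G g w 1 ∨ Ty G g w 2 := by
  have hv := hF.valid w
  have h0 := hG w
  rcases h.k with h1 | ⟨z, hz, hadj, h1⟩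
  · right
    exact Or.inr (Or.inr ⟨rfl, h1, by omega⟩)
  · have h2 : 1 ≤ (bad G g w).card := Finset.card_pos.2 ⟨z, (mem_bad G g w z).2 ⟨hadj, h1⟩⟩
    have h3 := bad_le_degree G g w
    left
    refine Or.inr (Or.inl ⟨rfl, ?_, ?_⟩) <;> rcases h0 with h0 | h0 <;> omega

/-- An ordinary vertex of the rest has no name in the root. -/
theorem not_named3 {w : V} (hr : w ∈ rest x l) (hna : ∀ i, w ≠ a i)
    (hnb : ∀ i, w ≠ b i) : ∀ i, i < root3.length → nm3 x l a b i ≠ w := by
  intro i hi
  have hlt : root3.length = 10 := rfl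
  rw [hlt] at hi
  rw [mem_rest] at hr
  interval_cases i
  · exact hr.1.symm
  · exact (hr.2 0).symm
  · exact (hr.2 1).symm
  · exact (hr.2 2).symm
  · exact (hna 0).symm
  · exact (hna 1).symm
  · exact (hna 2).symm
  · exact (hnb 0).symm
  · exact (hnb 1).symm
  · exact (hnb 2).symm

theorem not_named2 {w : V} (hr : w ∈ rest x l) (hna : ∀ i, w ≠ a i)
    (hnb : ∀ i, w ≠ b i) : ∀ i, i < root2.length → nm2 x l a b i ≠ w := by
  intro i hi
  have hlt : root2.length = 8 := rfl
  rw [hlt] at hi
  rw [mem_rest] at hr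
  interval_cases i
  · exact hr.1.symm
  · exact (hr.2 0).symm
  · exact (hr.2 1).symm
  · exact (hr.2 2).symm
  · exact (hna 0).symm
  · exact (hna 1).symm
  · exact (hnb 0).symm
  · exact (hnb 1).symm

end Pool.Agent.BLN.Chk
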