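import Pool.Agent.BLN.Chk.Branch

set_option autoImplicit false
set_option linter.unusedSectionVars false

/-!
The checker: a list of instructions works on a stack of patterns.
-/

namespace Pool.Agent.BLN.Chk

open Finset Pool.Agent.IVT

/-- Instructions: `s S`: the state `S` is valid and balanced; `x k A B`: leaf of kind `k`;
`o v`, `m v`: branch at an open slot of `v` for a neighbour of the other, of the same colour;
`n Q`: the pattern on top is `Q`. -/
inductive In
  | s (S : ℕ)
  | x (k : ℕ) (A B : List ℕ)
  | o (v : ℕ)
  | m (v : ℕ)
  | n (Q : Pat)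

def eqN : List ℕ → List ℕ → Bool
  | [], [] => true
  | a :: A, b :: B => Nat.beq a b && eqN A B
  | _, _ => false

def eqB : Bool → Bool → Bool
  | true, true => true
  | false, false => true
  | _, _ => false

def eqP : Pat → Pat → Bool
  | [], [] => true
  | a :: A, b :: B => eqB a.c b.c && Nat.beq a.t b.t && eqN a.nb b.nb && eqP A B
  | _, _ => false

theorem eqN_eq : ∀ (A B : List ℕ), eqN A B = true → A = B
  | [], [], _ => rfl
  | [], _ :: _, h => by simp [eqN] at h
  | _ :: _, [], h => by simp [eqN] at h
  | a :: A, b :: B, h => by
    simp only [eqN, Bool.and_eq_true] at h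
    rw [Nat.eq_of_beq_eq_true h.1, eqN_eq A B h.2]

theorem eqB_eq : ∀ (a b : Bool), eqB a b = true → a = b := by decide

theorem eqP_eq : ∀ (A B : Pat), eqP A B = true → A = B
  | [], [], _ => rfl
  | [], _ :: _, h => by simp [eqP] at h
  | _ :: _, [], h => by simp [eqP] at h
  | a :: A, b :: B, h => by
    simp only [eqP, Bool.and_eq_true] at h
    obtain ⟨⟨⟨h1, h2⟩, h3⟩, h4⟩ := h
    have h5 := eqB_eq _ _ h1
    have h6 := Nat.eq_of_beq_eq_true h2
    have h7 := eqN_eq _ _ h3
    have h8 : a = b := by
      cases a
      cases b
      simp only at h5 h6 h7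
      subst h5 h6 h7
      rfl
    rw [h8, eqP_eq A B h4]

/-- The state `S` is valid and balanced. -/
def leafS (P : Pat) (S : ℕ) : Bool := validC P S && decide (sumS P S = 1)

/-- The checker. -/
def run (leaf : ℕ → Pat → List ℕ → List ℕ → Bool) : List In → List Pat → Bool
  | [], st => st.isEmpty
  | i :: is, st =>
    match st with
    | [] => false
    | P :: st =>
      match i with
      | In.s S => leafS P S && run leaf is st
      | In.x k A B => leaf k P A B && run leaf is st
      | In.o v => Nat.blt v P.length && !(Nat.beq (slO P v) 0) && run leaf is (chO P v ++ st)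
      | In.m v => Nat.blt v P.length && !(Nat.beq (slM P v) 0) && run leaf is (chM P v ++ st)
      | In.n Q => eqP P Q && run leaf is (Q :: st)

variable {V : Type} [Fintype V] [DecidableEq V]
variable {G : SimpleGraph V} [DecidableRel G.Adj] {g : V → Bool}

theorem leafS_false (hx : Cx G) (hg : Valid3 G g) (hB : NoBal3 G) (hs : sgn true g = 2)
    {P : Pat} {f : ℕ → V} (h : Rea G g P f) {S : ℕ} (hS : leafS P S = true) : False := by
  unfold leafS at hS
  rw [Bool.and_eq_true, decide_eq_true_eq] at hS
  refine hB _ (h.valid_of hx hg hS.1) ?_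
  rw [h.sgn_stC, hs, hS.2]
  norm_num

/-- The pattern `P` with the map `f` extends the names below `n0` with the map `f0`. -/
def Ext (n0 : ℕ) (f0 : ℕ → V) (P : Pat) (f : ℕ → V) : Prop :=
  n0 ≤ P.length ∧ ∀ i, i < n0 → f i = f0 i

theorem Ext.step {n0 : ℕ} {f0 : ℕ → V} {P Q : Pat} {f f' : ℕ → V} (h : Ext n0 f0 P f)
    (hPQ : P.length ≤ Q.length) (hf : ∀ i, i < P.length → f' i = f i) : Ext n0 f0 Q f' :=
  ⟨h.1.trans hPQ, fun i hi => (hf i (lt_of_lt_of_le hi h.1)).trans (h.2 i hi)⟩

/-- Soundness of the checker. -/
theorem run_sound (hx : Cx G) (hg : Valid3 G g) (hB : NoBal3 G) (hs : sgn true g = 2)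
    (leaf : ℕ → Pat → List ℕ → List ℕ → Bool) (n0 : ℕ) (f0 : ℕ → V) (R : Prop)
    (hleaf : ∀ k P f A B, leaf k P A B = true → Rea G g P f → Ext n0 f0 P f → R) :
    ∀ (is : List In) (st : List Pat), run leaf is st = true →
      ∀ P ∈ st, ∀ f, Rea G g P f → Ext n0 f0 P f → R := by
  intro is
  induction is with
  | nil =>
    intro st hr P hP
    cases st with
    | nil => simp at hP
    | cons Q st => simp [run] at hr
  | cons i is ih =>
    intro st hr P hP f hf he
    cases st with
    | nil => simp at hP
    | cons Q st =>
      rcases List.mem_cons.1 hP with rfl | hP'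
      · cases i with
        | s S =>
          simp only [run, Bool.and_eq_true] at hr
          exact (leafS_false hx hg hB hs hf hr.1).elim
        | x k A B =>
          simp only [run, Bool.and_eq_true] at hr
          exact hleaf k P f A B hr.1 hf he
        | o v =>
          simp only [run, Bool.and_eq_true, Nat.blt_eq] at hr
          obtain ⟨⟨h1, h2⟩, h3⟩ := hr
          have h4 : slO P v ≠ 0 := by
            intro h5
            rw [h5] at h2
            exact Bool.noConfusion h2
          obtain ⟨C, hC, f', hf', hl, he'⟩ := hf.chO hx hg h1 h4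
          exact ih _ h3 C (List.mem_append_left _ hC) f' hf' (he.step hl he')
        | m v =>
          simp only [run, Bool.and_eq_true, Nat.blt_eq] at hr
          obtain ⟨⟨h1, h2⟩, h3⟩ := hr
          have h4 : slM P v ≠ 0 := by
            intro h5
            rw [h5] at h2
            exact Bool.noConfusion h2
          obtain ⟨C, hC, f', hf', hl, he'⟩ := hf.chM hx hg h1 h4
          exact ih _ h3 C (List.mem_append_left _ hC) f' hf' (he.step hl he')
        | n Q =>
          simp only [run, Bool.and_eq_true] at hr
          have h1 := eqP_eq _ _ hr.1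
          rw [← h1] at hr
          exact ih _ hr.2 P List.mem_cons_self f hf he
      · cases i with
        | s S =>
          simp only [run, Bool.and_eq_true] at hr
          exact ih _ hr.2 P hP' f hf he
        | x k A B =>
          simp only [run, Bool.and_eq_true] at hr
          exact ih _ hr.2 P hP' f hf he
        | o v =>
          simp only [run, Bool.and_eq_true] at hr
          exact ih _ hr.2 P (List.mem_append_right _ hP') f hf he
        | m v =>
          simp only [run, Bool.and_eq_true] at hr
          exact ih _ hr.2 P (List.mem_append_right _ hP') f hf he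
        | n Q' =>
          simp only [run, Bool.and_eq_true] at hr
          exact ih _ hr.2 P (List.mem_cons_of_mem _ hP') f hf he

end Pool.Agent.BLN.Chk
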