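import Pool.Agent.BLN.Chk.Dual

set_option autoImplicit false
set_option linter.unusedSectionVars false

/-!
The checker for frames: the pattern may be renamed, weakened, moved to another star of the same
colouring, or dualized.
-/

namespace Pool.Agent.BLN.Chk

open Finset Pool.Agent.IVT

variable {V : Type} [Fintype V] [DecidableEq V]
variable {G : SimpleGraph V} [DecidableRel G.Adj] {g : V → Bool} {P : Pat} {f : ℕ → V}

/-- The names `0, 1, 2, 3` are the centre and the leaves of a frame. -/
def FrP (G : SimpleGraph V) [DecidableRel G.Adj] (g : V → Bool) (f : ℕ → V) : Prop :=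
  ∃ a b : Fin 3 → V, Fr G g (f 0) (fun i => f (i + 1)) a b

/-- Instructions of the checker for frames. -/
inductive InF
  | s (S : ℕ)
  | x (k : ℕ) (A B : List ℕ)
  | o (v : ℕ)
  | m (v : ℕ)
  | n (Q : Pat)
  | e (Q : Pat) (s : List ℕ)
  | d

/-- The pattern `Q` is contained in `P` by `s`, and `s` maps the names `0, 1, 2, 3` to a star. -/
def embF (Q P : Pat) (s : List ℕ) : Bool :=
  embC Q P s && starC P (pick s 0) (pick s 1) (pick s 2) (pick s 3) && Nat.ble 4 Q.length

def runF (leaf : ℕ → Pat → List ℕ → List ℕ → Bool) : List InF → List Pat → Bool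
  | [], st => st.isEmpty
  | i :: is, st =>
    match st with
    | [] => false
    | P :: st =>
      match i with
      | InF.s S => leafS P S && runF leaf is st
      | InF.x k A B => leaf k P A B && runF leaf is st
      | InF.o v => Nat.blt v P.length && !(Nat.beq (slO P v) 0) && runF leaf is (chO P v ++ st)
      | InF.m v => Nat.blt v P.length && !(Nat.beq (slM P v) 0) && runF leaf is (chM P v ++ st)
      | InF.n Q => eqP P Q && runF leaf is (Q :: st)
      | InF.e Q s => embF Q P s && runF leaf is (Q :: st)
      | InF.d => stPC P 15 && runF leaf is (stP P 15 :: st)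

theorem fin3_cons (f : ℕ → V) (s : List ℕ) :
    ![f (pick s 1), f (pick s 2), f (pick s 3)] = fun i : Fin 3 => f (pick s (i + 1)) := by
  funext i
  fin_cases i <;> rfl

theorem Rea.embF (hx : Cx G) (h : Rea G g P f) (hF : FrP G g f) {Q : Pat} {s : List ℕ}
    (hs : embF Q P s = true) :
    Rea G g Q (fun i => f (pick s i)) ∧ FrP G g (fun i => f (pick s i)) ∧ 4 ≤ Q.length := by
  unfold Chk.embF at hs
  rw [Bool.and_eq_true, Bool.and_eq_true] at hs
  obtain ⟨⟨h1, h2⟩, h3⟩ := hs
  obtain ⟨a, b, hab⟩ := hF
  obtain ⟨a', b', h4⟩ := h.starC_fr hx hab.valid hab.sum hab.en h2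
  rw [fin3_cons] at h4
  exact ⟨h.emb h1, ⟨a', b', h4⟩, Nat.le_of_ble_eq_true h3⟩

/-- Soundness of the checker for frames. -/
theorem runF_sound (hx : Cx G) (hB : NoBal3 G) (leaf : ℕ → Pat → List ℕ → List ℕ → Bool)
    (hleaf : ∀ k P A B, leaf k P A B = true → ∀ g f, Rea G g P f → FrP G g f → 4 ≤ P.length →
      False) :
    ∀ (is : List InF) (st : List Pat), runF leaf is st = true →
      ∀ P ∈ st, ∀ g f, Rea G g P f → FrP G g f → 4 ≤ P.length → False := by
  intro is
  induction is with
  | nil =>
    intro st hr P hP
    cases st with
    | nil => simp at hP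
    | cons Q st => simp [runF] at hr
  | cons i is ih =>
    intro st hr P hP g f hf hF h4
    cases st with
    | nil => simp at hP
    | cons Q st =>
      rcases List.mem_cons.1 hP with rfl | hP'
      · cases i with
        | s S =>
          simp only [runF, Bool.and_eq_true] at hr
          obtain ⟨a, b, hab⟩ := hF
          exact leafS_false hx hab.valid hB hab.sum hf hr.1
        | x k A B =>
          simp only [runF, Bool.and_eq_true] at hr
          exact hleaf k P A B hr.1 g f hf hF h4
        | o v =>
          simp only [runF, Bool.and_eq_true, Nat.blt_eq] at hr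
          obtain ⟨⟨h1, h2⟩, h3⟩ := hr
          have h5 : slO P v ≠ 0 := by
            intro h5
            rw [h5] at h2
            exact Bool.noConfusion h2
          obtain ⟨a, b, hab⟩ := hF
          obtain ⟨C, hC, f', hf', hl, he'⟩ := hf.chO hx hab.valid h1 h5
          refine ih _ h3 C (List.mem_append_left _ hC) g f' hf' ⟨a, b, ?_⟩ (h4.trans hl)
          rw [he' 0 (by omega)]
          have h6 : (fun i : Fin 3 => f' (i + 1)) = fun i : Fin 3 => f (i + 1) := by
            funext i
            exact he' _ (by omega)
          rw [h6]
          exact hab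
        | m v =>
          simp only [runF, Bool.and_eq_true, Nat.blt_eq] at hr
          obtain ⟨⟨h1, h2⟩, h3⟩ := hr
          have h5 : slM P v ≠ 0 := by
            intro h5
            rw [h5] at h2
            exact Bool.noConfusion h2
          obtain ⟨a, b, hab⟩ := hF
          obtain ⟨C, hC, f', hf', hl, he'⟩ := hf.chM hx hab.valid h1 h5
          refine ih _ h3 C (List.mem_append_left _ hC) g f' hf' ⟨a, b, ?_⟩ (h4.trans hl)
          rw [he' 0 (by omega)]
          have h6 : (fun i : Fin 3 => f' (i + 1)) = fun i : Fin 3 => f (i + 1) := by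
            funext i
            exact he' _ (by omega)
          rw [h6]
          exact hab
        | n Q =>
          simp only [runF, Bool.and_eq_true] at hr
          have h1 := eqP_eq _ _ hr.1
          rw [← h1] at hr
          exact ih _ hr.2 P List.mem_cons_self g f hf hF h4
        | e Q s =>
          simp only [runF, Bool.and_eq_true] at hr
          obtain ⟨h1, h2, h3⟩ := hf.embF hx hF hr.1
          exact ih _ hr.2 Q List.mem_cons_self g _ h1 h2 h3
        | d =>
          simp only [runF, Bool.and_eq_true] at hr
          obtain ⟨a, b, hab⟩ := hF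
          have h1 := hf.stP hx hr.1
          rw [hf.du_eq h4 hab] at h1
          exact ih _ hr.2 (stP P 15) List.mem_cons_self _ f h1 ⟨b, a, hab.dual⟩
            (by rw [length_stP]; exact h4)
      · cases i with
        | s S =>
          simp only [runF, Bool.and_eq_true] at hr
          exact ih _ hr.2 P hP' g f hf hF h4
        | x k A B =>
          simp only [runF, Bool.and_eq_true] at hr
          exact ih _ hr.2 P hP' g f hf hF h4
        | o v =>
          simp only [runF, Bool.and_eq_true] at hr
          exact ih _ hr.2 P (List.mem_append_right _ hP') g f hf hF h4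
        | m v =>
          simp only [runF, Bool.and_eq_true] at hr
          exact ih _ hr.2 P (List.mem_append_right _ hP') g f hf hF h4
        | n Q' =>
          simp only [runF, Bool.and_eq_true] at hr
          exact ih _ hr.2 P (List.mem_cons_of_mem _ hP') g f hf hF h4
        | e Q' s =>
          simp only [runF, Bool.and_eq_true] at hr
          exact ih _ hr.2 P (List.mem_cons_of_mem _ hP') g f hf hF h4
        | d =>
          simp only [runF, Bool.and_eq_true] at hr
          exact ih _ hr.2 P (List.mem_cons_of_mem _ hP') g f hf hF h4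

end Pool.Agent.BLN.Chk
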